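import Mathlib

/-!
# Essential and influential edges in first passage percolation: definitions
-/

namespace Q292.Ess

open MeasureTheory ProbabilityTheory

/-- The nearest-neighbour graph on `ℤ^d`: `x ~ y` iff their `ℓ¹` distance is `1`. -/
def lattice (d : ℕ) : SimpleGraph (Fin d → ℤ) where
  Adj x y := ∑ i, |x i - y i| = 1
  symm := ⟨fun x y h => by simpa only [abs_sub_comm] using h⟩
  loopless := ⟨fun x h => by simp at h⟩

/-- The graph `G_n`: the restriction of the lattice to the box `[-2n, 2n]^d` (the vertices outside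
the box are kept as isolated vertices). -/
def G (d n : ℕ) : SimpleGraph (Fin d → ℤ) where
  Adj x y := (∀ i, |x i| ≤ 2 * n) ∧ (∀ i, |y i| ≤ 2 * n) ∧ (lattice d).Adj x y
  symm := ⟨fun _ _ h => ⟨h.2.1, h.1, h.2.2.symm⟩⟩
  loopless := ⟨fun _ h => h.2.2.ne rfl⟩

/-- The edge set `W_n`. -/
abbrev W (d n : ℕ) := (G d n).edgeSet

/-- Configurations: `true` stands for the passage time `a` and `false` for `b`. -/
abbrev Cfg (d n : ℕ) := W d n → Bool

/-- The product measure: every edge has passage time `a` with probability `p`, `b` with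
probability `1 - p`. -/
noncomputable def law (d n : ℕ) (p : unitInterval) : Measure (Cfg d n) :=
  Measure.infinitePi fun _ : W d n => bernoulliMeasure true false p

open Classical in
/-- The passage time of an edge. -/
noncomputable def tm (a b : ℝ) {d n : ℕ} (ω : Cfg d n) (e : Sym2 (Fin d → ℤ)) : ℝ :=
  if h : e ∈ (G d n).edgeSet then (if ω ⟨e, h⟩ then a else b) else 0

/-- The passage time of a walk in `G_n`. -/
noncomputable def T (a b : ℝ) {d n : ℕ} (ω : Cfg d n) {x y : Fin d → ℤ} (γ : (G d n).Walk x y) :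
    ℝ := (γ.edges.map (tm a b ω)).sum

/-- `f(ω)`, the minimal passage time of a path from `0` to `n v`. -/
noncomputable def f (a b : ℝ) {d n : ℕ} (v : Fin d → ℤ) (ω : Cfg d n) : ℝ :=
  sInf {t | ∃ γ : (G d n).Walk 0 (n • v), γ.IsPath ∧ T a b ω γ = t}

/-- `γ` is a geodesic. -/
def IsGeodesic (a b : ℝ) {d n : ℕ} (v : Fin d → ℤ) (ω : Cfg d n)
    (γ : (G d n).Walk 0 (n • v)) : Prop := γ.IsPath ∧ T a b ω γ = f a b v ω

open Classical in
/-- `∂_j f = f ∘ σ_j^b - f ∘ σ_j^a`. -/
noncomputable def jump (a b : ℝ) {d n : ℕ} (v : Fin d → ℤ) (j : W d n) (ω : Cfg d n) : ℝ :=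
  f a b v (Function.update ω j false) - f a b v (Function.update ω j true)

/-- `j` is essential: every geodesic passes through `j`. -/
def Essential (a b : ℝ) {d n : ℕ} (v : Fin d → ℤ) (j : W d n) : Set (Cfg d n) :=
  {ω | ∀ γ, IsGeodesic a b v ω γ → (j : Sym2 (Fin d → ℤ)) ∈ γ.edges}

/-- `j` is semi-essential: some geodesic passes through `j`. -/
def SemiEssential (a b : ℝ) {d n : ℕ} (v : Fin d → ℤ) (j : W d n) : Set (Cfg d n) :=
  {ω | ∃ γ, IsGeodesic a b v ω γ ∧ (j : Sym2 (Fin d → ℤ)) ∈ γ.edges}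

/-- `j` is influential. -/
def Influential (a b : ℝ) {d n : ℕ} (v : Fin d → ℤ) (j : W d n) : Set (Cfg d n) :=
  {ω | jump a b v j ω ≠ 0}

/-- `j` is very influential. -/
def VeryInfluential (a b : ℝ) {d n : ℕ} (v : Fin d → ℤ) (j : W d n) : Set (Cfg d n) :=
  {ω | jump a b v j ω = b - a}

end Q292.Ess
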