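import Mathlib
import Pool.Agent.Q292.Ess.Defs

/-!
# Basic facts on passage times of walks
-/

namespace Q292.Ess

open SimpleGraph

variable {d n : ℕ} {a b : ℝ}

theorem tm_cases (ω : Cfg d n) {e : Sym2 (Fin d → ℤ)} (he : e ∈ (G d n).edgeSet) :
    tm a b ω e = if ω ⟨e, he⟩ then a else b := by
  rw [tm, dif_pos he]

theorem tm_ge (hab : a < b) (ω : Cfg d n) {e : Sym2 (Fin d → ℤ)} (he : e ∈ (G d n).edgeSet) :
    a ≤ tm a b ω e := by
  rw [tm_cases ω he]
  split_ifs
  · exact le_rfl
  · exact hab.le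

theorem tm_le (hab : a < b) (ω : Cfg d n) {e : Sym2 (Fin d → ℤ)} (he : e ∈ (G d n).edgeSet) :
    tm a b ω e ≤ b := by
  rw [tm_cases ω he]
  split_ifs
  · exact hab.le
  · exact le_rfl

theorem tm_nonneg (ha : 0 < a) (hab : a < b) (ω : Cfg d n) (e : Sym2 (Fin d → ℤ)) :
    0 ≤ tm a b ω e := by
  by_cases he : e ∈ (G d n).edgeSet
  · exact ha.le.trans (tm_ge hab ω he)
  · rw [tm, dif_neg he]

@[simp] theorem T_nil (ω : Cfg d n) (x : Fin d → ℤ) : T a b ω (Walk.nil : (G d n).Walk x x) = 0 := by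
  simp [T]

@[simp] theorem T_cons (ω : Cfg d n) {x y z : Fin d → ℤ} (h : (G d n).Adj x y)
    (p : (G d n).Walk y z) : T a b ω (Walk.cons h p) = tm a b ω s(x, y) + T a b ω p := by
  simp [T]

theorem T_append (ω : Cfg d n) {x y z : Fin d → ℤ} (p : (G d n).Walk x y)
    (q : (G d n).Walk y z) : T a b ω (p.append q) = T a b ω p + T a b ω q := by
  simp [T, Walk.edges_append]

theorem T_nonneg (ha : 0 < a) (hab : a < b) (ω : Cfg d n) {x y : Fin d → ℤ}
    (p : (G d n).Walk x y) : 0 ≤ T a b ω p := by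
  unfold T
  apply List.sum_nonneg
  intro t ht
  obtain ⟨e, -, rfl⟩ := List.mem_map.1 ht
  exact tm_nonneg ha hab ω e

/-- Lower bounds by potentials. -/
theorem potential (ω : Cfg d n) (φ : (Fin d → ℤ) → ℝ) {x y : Fin d → ℤ} (p : (G d n).Walk x y)
    (h : ∀ u w, s(u, w) ∈ p.edges → φ w - φ u ≤ tm a b ω s(u, w)) :
    φ y - φ x ≤ T a b ω p := by
  induction p with
  | nil => simp
  | cons hadj p ih =>
    rename_i u v w
    rw [T_cons]
    have h1 := h u v (by simp)
    have h2 := ih (fun u' w' he => h u' w' (by simp [he]))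
    linarith

theorem T_le_length (hab : a < b) (ω : Cfg d n) {x y : Fin d → ℤ} (p : (G d n).Walk x y) :
    T a b ω p ≤ b * p.length := by
  induction p with
  | nil => simp
  | cons hadj p ih =>
    rename_i u v w
    rw [T_cons, Walk.length_cons]
    have := tm_le hab ω (show s(u, v) ∈ (G d n).edgeSet from hadj)
    push_cast
    linarith

theorem sublist_sum {α : Type*} {g : α → ℝ} (hg : ∀ x, 0 ≤ g x) {l1 l2 : List α} (h : l1.Sublist l2) :
    (l1.map g).sum ≤ (l2.map g).sum := by
  induction h with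
  | slnil => simp
  | cons x _ ih =>
    simp only [List.map_cons, List.sum_cons]
    linarith [hg x]
  | cons_cons x _ ih =>
    simp only [List.map_cons, List.sum_cons]
    linarith

theorem sublist_sum_lt {α : Type*} {g : α → ℝ} (hg : ∀ x, 0 ≤ g x) {l1 l2 : List α}
    (h : l1.Sublist l2) {x : α} (hx2 : x ∈ l2) (hx1 : x ∉ l1) :
    (l1.map g).sum + g x ≤ (l2.map g).sum := by
  induction h with
  | slnil => simp at hx2
  | cons y h ih =>
    simp only [List.map_cons, List.sum_cons]
    rcases List.mem_cons.1 hx2 with rfl | h2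
    · have := sublist_sum hg h
      linarith
    · have := ih h2 hx1
      linarith [hg y]
  | cons_cons y h ih =>
    simp only [List.map_cons, List.sum_cons]
    rcases List.mem_cons.1 hx2 with rfl | h2
    · exact absurd List.mem_cons_self hx1
    · have := ih h2 (fun h3 => hx1 (List.mem_cons_of_mem _ h3))
      linarith

theorem T_bypass_le (ha : 0 < a) (hab : a < b) (ω : Cfg d n) {x y : Fin d → ℤ}
    (p : (G d n).Walk x y) : T a b ω p.bypass ≤ T a b ω p :=
  sublist_sum (tm_nonneg ha hab ω) p.edges_bypass_sublist_edges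

theorem f_bdd (ha : 0 < a) (hab : a < b) (v : Fin d → ℤ) (ω : Cfg d n) :
    BddBelow {t | ∃ γ : (G d n).Walk 0 (n • v), γ.IsPath ∧ T a b ω γ = t} := by
  refine ⟨0, ?_⟩
  rintro t ⟨γ, -, rfl⟩
  exact T_nonneg ha hab ω γ

theorem f_le (ha : 0 < a) (hab : a < b) {v : Fin d → ℤ} (ω : Cfg d n)
    (γ : (G d n).Walk 0 (n • v)) : f a b v ω ≤ T a b ω γ :=
  (csInf_le (f_bdd ha hab v ω) ⟨γ.bypass, γ.bypass_isPath, rfl⟩).trans (T_bypass_le ha hab ω γ)

theorem le_f {v : Fin d → ℤ} (ω : Cfg d n) (γ0 : (G d n).Walk 0 (n • v)) {c : ℝ}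
    (h : ∀ γ : (G d n).Walk 0 (n • v), γ.IsPath → c ≤ T a b ω γ) : c ≤ f a b v ω := by
  refine le_csInf ⟨_, γ0.bypass, γ0.bypass_isPath, rfl⟩ ?_
  rintro t ⟨γ, hγ, rfl⟩
  exact h γ hγ

/-- A walk through `j` of minimal passage time yields a geodesic through `j`. -/
theorem geodesic_of_walk (ha : 0 < a) (hab : a < b) {v : Fin d → ℤ} {ω : Cfg d n} {j : W d n}
    (γ : (G d n).Walk 0 (n • v)) (hj : (j : Sym2 (Fin d → ℤ)) ∈ γ.edges)
    (h : ∀ γ' : (G d n).Walk 0 (n • v), T a b ω γ ≤ T a b ω γ') :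
    T a b ω γ = f a b v ω ∧ ω ∈ SemiEssential a b v j := by
  have h1 : T a b ω γ = f a b v ω :=
    le_antisymm (le_f ω γ fun γ' _ => h γ') (f_le ha hab ω γ)
  have h2 : T a b ω γ.bypass = f a b v ω := by
    refine le_antisymm ?_ (f_le ha hab ω _)
    rw [← h1]
    exact T_bypass_le ha hab ω γ
  refine ⟨h1, γ.bypass, ⟨γ.bypass_isPath, h2⟩, ?_⟩
  by_contra hcon
  have h3 := sublist_sum_lt (tm_nonneg (n := n) ha hab ω) γ.edges_bypass_sublist_edges hj hcon
  have h4 : 0 < tm a b ω j := ha.trans_le (tm_ge hab ω j.2)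
  have h5 : T a b ω γ.bypass + tm a b ω j ≤ T a b ω γ := h3
  rw [h2, h1] at h5
  linarith

/-- number of `true` and `false` edges -/
theorem T_count (ω : Cfg d n) {x y : Fin d → ℤ} (p : (G d n).Walk x y) :
    ∃ c : ℕ × ℕ, T a b ω p = a * c.1 + b * c.2 := by
  induction p with
  | nil => exact ⟨(0, 0), by simp⟩
  | cons hadj p ih =>
    rename_i u v w
    obtain ⟨c, hc⟩ := ih
    rw [T_cons, hc, tm_cases ω (show s(u, v) ∈ (G d n).edgeSet from hadj)]
    split_ifs
    · exact ⟨(c.1 + 1, c.2), by push_cast; ring⟩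
    · exact ⟨(c.1, c.2 + 1), by push_cast; ring⟩

/-- Minima over nonempty families of values `a i + b l` are attained. -/
theorem attained (ha : 0 < a) (hb : 0 < b) {X : Type*} [Nonempty X] (g : X → ℝ)
    (hg : ∀ x, ∃ c : ℕ × ℕ, g x = a * c.1 + b * c.2) : ∃ x, ∀ y, g x ≤ g y := by
  choose c hc using hg
  obtain ⟨x0⟩ := ‹Nonempty X›
  have hfin : (c '' {x | g x ≤ g x0}).Finite := by
    refine Set.Finite.subset (Set.Finite.prod (Set.finite_Iic ⌊g x0 / a⌋₊)
      (Set.finite_Iic ⌊g x0 / b⌋₊)) ?_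
    rintro _ ⟨x, hx, rfl⟩
    have hx' : g x ≤ g x0 := hx
    rw [hc x] at hx'
    have h1 : 0 ≤ a * ((c x).1 : ℝ) := by positivity
    have h2 : 0 ≤ b * ((c x).2 : ℝ) := by positivity
    refine ⟨Nat.le_floor ?_, Nat.le_floor ?_⟩
    · rw [le_div_iff₀ ha]; linarith
    · rw [le_div_iff₀ hb]; linarith
  obtain ⟨m, ⟨x, hx, rfl⟩, hmin⟩ := Set.exists_min_image _ (fun m : ℕ × ℕ => a * m.1 + b * m.2) hfin
    ⟨c x0, x0, le_refl (g x0), rfl⟩
  refine ⟨x, fun y => ?_⟩
  by_cases hy : g y ≤ g x0
  · have := hmin (c y) ⟨y, hy, rfl⟩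
    rw [hc x, hc y]
    exact this
  · have hx' : g x ≤ g x0 := hx
    linarith

theorem exists_min_walk (ha : 0 < a) (hab : a < b) {x y : Fin d → ℤ} (ω : Cfg d n)
    (γ0 : (G d n).Walk x y) : ∃ γ : (G d n).Walk x y, ∀ γ' : (G d n).Walk x y,
      T a b ω γ ≤ T a b ω γ' := by
  have : Nonempty ((G d n).Walk x y) := ⟨γ0⟩
  exact attained ha (ha.trans hab) (fun γ : (G d n).Walk x y => T a b ω γ) (fun γ => T_count ω γ)

/-- If walks avoiding `j` can be replaced by walks through `j`, then `j` is semi-essential. -/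
theorem semi_of_replace (ha : 0 < a) (hab : a < b) {v : Fin d → ℤ} {ω : Cfg d n} {j : W d n}
    (γ0 : (G d n).Walk 0 (n • v))
    (h : ∀ γ : (G d n).Walk 0 (n • v), (j : Sym2 (Fin d → ℤ)) ∉ γ.edges →
      ∃ γ' : (G d n).Walk 0 (n • v), (j : Sym2 (Fin d → ℤ)) ∈ γ'.edges ∧
        T a b ω γ' ≤ T a b ω γ) : ω ∈ SemiEssential a b v j := by
  obtain ⟨γ, hγ⟩ := exists_min_walk ha hab ω γ0
  by_cases hj : (j : Sym2 (Fin d → ℤ)) ∈ γ.edges
  · exact (geodesic_of_walk ha hab γ hj hγ).2
  · obtain ⟨γ', hj', hle⟩ := h γ hj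
    exact (geodesic_of_walk ha hab γ' hj' fun γ'' => hle.trans (hγ γ'')).2

open Classical in
theorem tm_update (ω : Cfg d n) (j : W d n) (x : Bool) (e : Sym2 (Fin d → ℤ)) :
    tm a b (Function.update ω j x) e = if e = j then (if x then a else b) else tm a b ω e := by
  by_cases he : e ∈ (G d n).edgeSet
  · rw [tm_cases _ he, tm_cases _ he]
    by_cases hej : e = j
    · subst hej
      rw [if_pos rfl, Function.update_self]
    · rw [if_neg hej, Function.update_of_ne]
      intro h
      exact hej (congrArg Subtype.val h)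
  · have hej : e ≠ j := fun h => he (h ▸ j.2)
    rw [if_neg hej, tm, tm, dif_neg he, dif_neg he]

open Classical in
theorem T_update_not (ω : Cfg d n) (j : W d n) (x : Bool) {u w : Fin d → ℤ}
    (p : (G d n).Walk u w) (hj : (j : Sym2 (Fin d → ℤ)) ∉ p.edges) :
    T a b (Function.update ω j x) p = T a b ω p := by
  unfold T
  congr 1
  refine List.map_congr_left fun e he => ?_
  have hne : e ≠ j := by
    rintro rfl
    exact hj he
  rw [tm_update, if_neg hne]

theorem list_update {α : Type*} {l : List α} (hl : l.Nodup) {j : α} (hj : j ∈ l) {g g' : α → ℝ}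
    (h : ∀ x, x ≠ j → g' x = g x) : (l.map g').sum = (l.map g).sum + (g' j - g j) := by
  induction l with
  | nil => simp at hj
  | cons x l ih =>
    rw [List.nodup_cons] at hl
    simp only [List.map_cons, List.sum_cons]
    rcases List.mem_cons.1 hj with rfl | hj'
    · have : l.map g' = l.map g := List.map_congr_left fun y hy => h y (by
        rintro rfl
        exact hl.1 hy)
      rw [this]
      ring
    · rw [ih hl.2 hj', h x (by
        rintro rfl
        exact hl.1 hj')]
      ring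

open Classical in
theorem T_update_path (ω : Cfg d n) (j : W d n) {u w : Fin d → ℤ}
    (p : (G d n).Walk u w) (hp : p.IsPath) (hj : (j : Sym2 (Fin d → ℤ)) ∈ p.edges) :
    T a b (Function.update ω j false) p = T a b (Function.update ω j true) p + (b - a) := by
  have h := list_update hp.isTrail.edges_nodup hj (g := tm a b (Function.update ω j true))
    (g' := tm a b (Function.update ω j false)) (fun e he => by
      rw [tm_update, tm_update, if_neg he, if_neg he])
  unfold T
  rw [h, tm_update, tm_update, if_pos rfl, if_pos rfl]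
  simp

open Classical in
/-- A configuration with `ω_j = b` and a geodesic through `j` is very influential, and lowering
`j` to `a` makes `j` essential. -/
theorem very_of_semi (ha : 0 < a) (hab : a < b) {v : Fin d → ℤ} {ω : Cfg d n} {j : W d n}
    (hω : ω j = false) (h : ω ∈ SemiEssential a b v j) :
    ω ∈ VeryInfluential a b v j ∧ Function.update ω j true ∈ Essential a b v j := by
  obtain ⟨γ, ⟨hγp, hγ⟩, hj⟩ := h
  have hup : Function.update ω j false = ω := by
    rw [← hω, Function.update_eq_self]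
  have h1 : T a b ω γ = T a b (Function.update ω j true) γ + (b - a) := by
    have := T_update_path (a := a) (b := b) ω j γ hγp hj
    rwa [hup] at this
  have h2 : f a b v (Function.update ω j true) ≤ f a b v ω - (b - a) := by
    have := f_le ha hab (Function.update ω j true) γ
    rw [← hγ]
    linarith
  have h3 : f a b v ω - (b - a) ≤ f a b v (Function.update ω j true) := by
    refine le_f _ γ fun γ' hγ' => ?_
    have h4 := f_le ha hab ω γ'
    by_cases hj' : (j : Sym2 (Fin d → ℤ)) ∈ γ'.edges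
    · have := T_update_path (a := a) (b := b) ω j γ' hγ' hj'
      rw [hup] at this
      linarith
    · rw [T_update_not ω j true γ' hj']
      linarith
  refine ⟨?_, ?_⟩
  · change f a b v (Function.update ω j false) - f a b v (Function.update ω j true) = b - a
    rw [hup]
    linarith
  · rintro γ' ⟨hγ'p, hγ'⟩
    by_contra hj'
    rw [T_update_not ω j true γ' hj'] at hγ'
    have h4 := f_le ha hab ω γ'
    linarith

end Q292.Ess
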