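import Mathlib
import Pool.Agent.Q292.Ess.Defs
import Pool.Agent.Q292.Ess.Basic

/-!
# Monotone walks and the detour through a given edge
-/

namespace Q292.Ess

open SimpleGraph

variable {d n : ℕ} {a b : ℝ}

/-- `ℓ¹` norm -/
def nm (x : Fin d → ℤ) : ℤ := ∑ i, |x i|

theorem nm_nonneg (x : Fin d → ℤ) : 0 ≤ nm x := Finset.sum_nonneg fun _ _ => abs_nonneg _

theorem abs_le_nm (x : Fin d → ℤ) (i : Fin d) : |x i| ≤ nm x :=
  Finset.single_le_sum (f := fun i => |x i|) (fun _ _ => abs_nonneg _) (Finset.mem_univ i)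

theorem nm_zero : nm (0 : Fin d → ℤ) = 0 := by simp [nm]

theorem nm_update (x : Fin d → ℤ) (i : Fin d) (t : ℤ) :
    nm (Function.update x i t) = nm x - |x i| + |t| := by
  classical
  rw [nm, nm, ← Finset.add_sum_erase _ _ (Finset.mem_univ i),
    ← Finset.add_sum_erase Finset.univ (fun i => |x i|) (Finset.mem_univ i), Function.update_self,
    Finset.sum_congr rfl (g := fun j => |x j|) (fun j hj => by
      rw [Function.update_of_ne (Finset.ne_of_mem_erase hj)])]
  ring

theorem adj_update (x : Fin d → ℤ) (i : Fin d) {t : ℤ} (h : |x i - t| = 1) :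
    (lattice d).Adj x (Function.update x i t) := by
  classical
  change ∑ j, |x j - Function.update x i t j| = 1
  rw [Finset.sum_eq_single i]
  · rw [Function.update_self, h]
  · intro j _ hj
    rw [Function.update_of_ne hj, sub_self, abs_zero]
  · intro h
    exact absurd (Finset.mem_univ i) h

/-- structure of an edge -/
theorem adj_struct {x y : Fin d → ℤ} (h : (lattice d).Adj x y) :
    ∃ i, |x i - y i| = 1 ∧ y = Function.update x i (y i) := by
  classical
  have h1 : ∑ i, |x i - y i| = 1 := h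
  obtain ⟨i, -, hi⟩ : ∃ i ∈ Finset.univ, |x i - y i| ≠ 0 :=
    Finset.exists_ne_zero_of_sum_ne_zero (by rw [h1]; norm_num)
  have hi1 : 1 ≤ |x i - y i| := by
    have := abs_nonneg (x i - y i)
    omega
  rw [← Finset.add_sum_erase _ _ (Finset.mem_univ i)] at h1
  have h2 : 0 ≤ ∑ j ∈ Finset.univ.erase i, |x j - y j| :=
    Finset.sum_nonneg fun _ _ => abs_nonneg _
  have h3 : ∑ j ∈ Finset.univ.erase i, |x j - y j| = 0 := by omega
  refine ⟨i, by omega, ?_⟩
  funext j
  by_cases hj : j = i
  · subst hj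
    rw [Function.update_self]
  · rw [Function.update_of_ne hj]
    have := (Finset.sum_eq_zero_iff_of_nonneg (fun _ _ => abs_nonneg _)).1 h3 j
      (Finset.mem_erase.2 ⟨hj, Finset.mem_univ _⟩)
    rw [abs_eq_zero] at this
    omega

theorem nm_adj {x y : Fin d → ℤ} (h : (lattice d).Adj x y) : nm y = nm x + 1 ∨ nm y = nm x - 1 := by
  obtain ⟨i, h1, h2⟩ := adj_struct h
  rw [h2, nm_update]
  rcases abs_cases (x i - y i) with ⟨h3, _⟩ | ⟨h3, _⟩ <;>
  rcases abs_cases (x i) with ⟨h4, _⟩ | ⟨h4, _⟩ <;>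
  rcases abs_cases (y i) with ⟨h5, _⟩ | ⟨h5, _⟩ <;> omega

/-- `u` lies between `0` and `w` -/
def dom (u w : Fin d → ℤ) : Prop := ∀ i, (0 ≤ u i ∧ u i ≤ w i) ∨ (w i ≤ u i ∧ u i ≤ 0)

theorem dom_refl (u : Fin d → ℤ) : dom u u := fun i => by
  rcases le_total 0 (u i) with h | h
  · exact Or.inl ⟨h, le_rfl⟩
  · exact Or.inr ⟨le_rfl, h⟩

theorem dom_zero (u : Fin d → ℤ) : dom 0 u := fun i => by
  rcases le_total 0 (u i) with h | h
  · exact Or.inl ⟨le_rfl, h⟩
  · exact Or.inr ⟨h, le_rfl⟩

theorem dom_abs {u w : Fin d → ℤ} (h : dom u w) (i : Fin d) : |u i| ≤ |w i| := by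
  rcases h i with ⟨h1, h2⟩ | ⟨h1, h2⟩
  · rw [abs_of_nonneg h1, abs_of_nonneg (h1.trans h2)]; exact h2
  · rw [abs_of_nonpos h2, abs_of_nonpos (h1.trans h2)]; omega

theorem dom_nm {u w : Fin d → ℤ} (h : dom u w) : nm u ≤ nm w :=
  Finset.sum_le_sum fun i _ => dom_abs h i

theorem dom_trans {u w z : Fin d → ℤ} (h : dom u w) (h' : dom w z) : dom u z := fun i => by
  rcases h i with ⟨h1, h2⟩ | ⟨h1, h2⟩ <;> rcases h' i with ⟨h3, h4⟩ | ⟨h3, h4⟩
  · exact Or.inl ⟨h1, h2.trans h4⟩
  · have h5 : u i = 0 := by omega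
    rw [h5]
    rcases le_total 0 (z i) with h | h
    · exact Or.inl ⟨le_rfl, h⟩
    · exact Or.inr ⟨h, le_rfl⟩
  · have h5 : u i = 0 := by omega
    rw [h5]
    rcases le_total 0 (z i) with h | h
    · exact Or.inl ⟨le_rfl, h⟩
    · exact Or.inr ⟨h, le_rfl⟩
  · exact Or.inr ⟨h3.trans h1, h2⟩

theorem step_out {u w : Fin d → ℤ} (h : dom u w) (hne : u ≠ w) :
    ∃ u', (lattice d).Adj u u' ∧ dom u u' ∧ dom u' w ∧ nm u' = nm u + 1 := by
  classical
  obtain ⟨i, hi⟩ := Function.ne_iff.1 hne
  rcases h i with ⟨h1, h2⟩ | ⟨h1, h2⟩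
  · refine ⟨Function.update u i (u i + 1), adj_update u i (by simp), ?_, ?_, ?_⟩
    · intro j
      by_cases hj : j = i
      · subst hj
        rw [Function.update_self]
        exact Or.inl ⟨h1, by omega⟩
      · rw [Function.update_of_ne hj]
        exact dom_refl u j
    · intro j
      by_cases hj : j = i
      · subst hj
        rw [Function.update_self]
        exact Or.inl ⟨by omega, by omega⟩
      · rw [Function.update_of_ne hj]
        exact h j
    · rw [nm_update, abs_of_nonneg h1, abs_of_nonneg (by omega)]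
      ring
  · refine ⟨Function.update u i (u i - 1), adj_update u i (by simp), ?_, ?_, ?_⟩
    · intro j
      by_cases hj : j = i
      · subst hj
        rw [Function.update_self]
        exact Or.inr ⟨by omega, h2⟩
      · rw [Function.update_of_ne hj]
        exact dom_refl u j
    · intro j
      by_cases hj : j = i
      · subst hj
        rw [Function.update_self]
        exact Or.inr ⟨by omega, by omega⟩
      · rw [Function.update_of_ne hj]
        exact h j
    · rw [nm_update, abs_of_nonpos h2, abs_of_nonpos (by omega)]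
      ring

theorem step_in {u w : Fin d → ℤ} (h : dom u w) (hne : u ≠ w) :
    ∃ w', (lattice d).Adj w w' ∧ dom u w' ∧ nm w' = nm w - 1 := by
  classical
  obtain ⟨i, hi⟩ := Function.ne_iff.1 hne
  rcases h i with ⟨h1, h2⟩ | ⟨h1, h2⟩
  · refine ⟨Function.update w i (w i - 1), adj_update w i (by simp), ?_, ?_⟩
    · intro j
      by_cases hj : j = i
      · subst hj
        rw [Function.update_self]
        exact Or.inl ⟨h1, by omega⟩
      · rw [Function.update_of_ne hj]
        exact h j
    · rw [nm_update, abs_of_nonneg (by omega), abs_of_nonneg (by omega)]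
      ring
  · refine ⟨Function.update w i (w i + 1), adj_update w i (by simp), ?_, ?_⟩
    · intro j
      by_cases hj : j = i
      · subst hj
        rw [Function.update_self]
        exact Or.inr ⟨by omega, h2⟩
      · rw [Function.update_of_ne hj]
        exact h j
    · rw [nm_update, abs_of_nonpos (by omega), abs_of_nonpos (by omega)]
      ring

theorem eq_of_dom_nm {u w : Fin d → ℤ} (h : dom u w) (hn : nm w ≤ nm u) : u = w := by
  by_contra hne
  obtain ⟨u', -, -, h2, h3⟩ := step_out h hne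
  have := dom_nm h2
  omega

/-- Monotone walks in the box. -/
theorem outWalk' {w : Fin d → ℤ} (hw : ∀ i, |w i| ≤ 2 * n) : ∀ (t : ℕ) (u : Fin d → ℤ), dom u w →
    nm w - nm u = t → ∃ p : (G d n).Walk u w, p.length = t ∧
      ∀ z ∈ p.support, dom u z ∧ dom z w := by
  intro t
  induction t with
  | zero =>
    intro u hu ht
    have : u = w := eq_of_dom_nm hu (by push_cast at ht; omega)
    subst this
    exact ⟨Walk.nil, rfl, fun z hz => by
      rw [Walk.support_nil, List.mem_singleton] at hz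
      rw [hz]
      exact ⟨dom_refl _, dom_refl _⟩⟩
  | succ t ih =>
    intro u hu ht
    have hne : u ≠ w := by
      rintro rfl
      push_cast at ht
      omega
    obtain ⟨u', h1, h2, h3, h4⟩ := step_out hu hne
    obtain ⟨p, hp, hs⟩ := ih u' h3 (by push_cast at ht; omega)
    have hadj : (G d n).Adj u u' :=
      ⟨fun i => (dom_abs hu i).trans (hw i), fun i => (dom_abs h3 i).trans (hw i), h1⟩
    refine ⟨Walk.cons hadj p, by simp [hp], fun z hz => ?_⟩
    rw [Walk.support_cons, List.mem_cons] at hz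
    rcases hz with rfl | hz
    · exact ⟨dom_refl _, hu⟩
    · exact ⟨dom_trans h2 (hs z hz).1, (hs z hz).2⟩

/-- Monotone walks in the box. -/
theorem outWalk {w : Fin d → ℤ} (hw : ∀ i, |w i| ≤ 2 * n) (t : ℕ) (u : Fin d → ℤ) (hu : dom u w)
    (ht : nm w - nm u = t) :
    ∃ p : (G d n).Walk u w, p.length = t ∧ ∀ z ∈ p.support, nm z ≤ nm w := by
  obtain ⟨p, h1, h2⟩ := outWalk' hw t u hu ht
  exact ⟨p, h1, fun z hz => dom_nm (h2 z hz).2⟩

/-- State of the construction of the detour: a walk from `y` to `u` of length `l` inside the ball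
of radius `R`, all of whose vertices `w` are reached quickly compared with their norm. -/
def St (a b : ℝ) (n : ℕ) (k R : ℤ) (y u : Fin d → ℤ) (l : ℕ) : Prop :=
  a * l ≤ b * ((nm u : ℝ) - k - 1) ∧
    ∃ Γ : (G d n).Walk y u, Γ.length = l ∧ ∀ w ∈ Γ.support, nm w ≤ R ∧
      ∃ q : (G d n).Walk y w, (∀ e ∈ q.edges, e ∈ Γ.edges) ∧
        a * q.length ≤ b * ((nm w : ℝ) - k - 1)

theorem St.step {k R : ℤ} (hR : R ≤ 2 * n) {y u u' : Fin d → ℤ} {l : ℕ} (h : St a b n k R y u l)
    (hadj : (lattice d).Adj u u') (hu' : nm u' ≤ R)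
    (hl : a * ((l + 1 : ℕ) : ℝ) ≤ b * ((nm u' : ℝ) - k - 1)) : St a b n k R y u' (l + 1) := by
  obtain ⟨-, Γ, hΓl, hΓ⟩ := h
  have hu := (hΓ u (Walk.end_mem_support Γ)).1
  have hadj' : (G d n).Adj u u' :=
    ⟨fun i => (abs_le_nm u i).trans (hu.trans hR), fun i => (abs_le_nm u' i).trans (hu'.trans hR),
      hadj⟩
  refine ⟨hl, Γ.concat hadj', by simp [hΓl], fun w hw => ?_⟩
  rw [Walk.support_concat, List.mem_append, List.mem_singleton] at hw
  rcases hw with hw | rfl
  · obtain ⟨h1, q, hq, hql⟩ := hΓ w hw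
    refine ⟨h1, q, fun e he => ?_, hql⟩
    rw [Walk.edges_concat]
    simp [hq e he]
  · refine ⟨hu', Γ.concat hadj', fun e he => he, ?_⟩
    rw [Walk.length_concat, hΓl]
    exact hl

theorem St.out (ha : 0 < a) (hab : a < b) {k R : ℤ} (hR : R ≤ 2 * n) {y w : Fin d → ℤ}
    (hw : nm w ≤ R) : ∀ (t : ℕ) (u : Fin d → ℤ) (l : ℕ), dom u w → nm w - nm u = t →
      St a b n k R y u l → St a b n k R y w (l + t) := by
  intro t
  induction t with
  | zero =>
    intro u l hu ht h
    have : u = w := eq_of_dom_nm hu (by push_cast at ht; omega)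
    subst this
    exact h
  | succ t ih =>
    intro u l hu ht h
    have hne : u ≠ w := by
      rintro rfl
      push_cast at ht
      omega
    obtain ⟨u', h1, h2, h3, h4⟩ := step_out hu hne
    have h5 := h.step hR h1 ((dom_nm h3).trans hw) (by
      have := h.1
      rw [h4]
      push_cast
      linarith)
    have := ih u' (l + 1) h3 (by push_cast at ht; omega) h5
    rwa [add_assoc, add_comm 1 t] at this

theorem St.inn (ha : 0 < a) (hab : a < b) {k R : ℤ} (hR : R ≤ 2 * n) {y u : Fin d → ℤ} :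
    ∀ (t : ℕ) (w : Fin d → ℤ) (l : ℕ), dom u w → nm w - nm u = t → nm w ≤ R →
      a * ((l + t : ℕ) : ℝ) ≤ b * ((nm u : ℝ) - k - 1) →
      St a b n k R y w l → St a b n k R y u (l + t) := by
  intro t
  induction t with
  | zero =>
    intro w l hu ht _ _ h
    have : u = w := eq_of_dom_nm hu (by push_cast at ht; omega)
    subst this
    exact h
  | succ t ih =>
    intro w l hu ht hwR hl h
    have hne : u ≠ w := by
      rintro rfl
      push_cast at ht
      omega
    obtain ⟨w', h1, h2, h3⟩ := step_in hu hne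
    have h4 := dom_nm h2
    have h4' : (nm u : ℝ) ≤ nm w' := by exact_mod_cast h4
    have h5 := h.step hR h1 (by omega) (by
      have e1 : a * ((l + 1 : ℕ) : ℝ) ≤ a * ((l + (t + 1) : ℕ) : ℝ) := by
        refine mul_le_mul_of_nonneg_left ?_ ha.le
        push_cast
        have : (0 : ℝ) ≤ t := by positivity
        linarith
      have e2 : b * ((nm u : ℝ) - k - 1) ≤ b * ((nm w' : ℝ) - k - 1) :=
        mul_le_mul_of_nonneg_left (by linarith) (ha.trans hab).le
      linarith)
    have := ih w' (l + 1) h2 (by push_cast at ht; omega) (by omega) (by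
      rw [add_assoc, add_comm 1 t]
      exact hl) h5
    rwa [add_assoc, add_comm 1 t] at this

/-- The detour from `y` to any target `ys` on the sphere of radius `R`. -/
theorem detour (ha : 0 < a) (hab : a < b) (hd : 2 ≤ d) {k H H2 : ℕ}
    (hH : a * ((H : ℝ) + k + 1) ≤ b * ((H : ℝ) - k - 1))
    (hH2 : a * ((H2 : ℝ) + 2 * H + k + 1) ≤ b * ((H2 : ℝ) - k - 1)) {R : ℕ}
    (hR1 : k + 1 + H + H2 ≤ R) (hR2 : d * H2 ≤ R) (hRn : (R : ℤ) ≤ 2 * n) {y ys : Fin d → ℤ}
    (hy : nm y = k + 1) (hys : nm ys = R) : ∃ l, St a b n k R y ys l := by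
  classical
  -- a large coordinate of the target
  obtain ⟨i2, hi2⟩ : ∃ i, (H2 : ℤ) ≤ |ys i| := by
    by_contra hcon
    push Not at hcon
    have h1 : nm ys < ∑ _i : Fin d, (H2 : ℤ) :=
      Finset.sum_lt_sum_of_nonempty ⟨⟨0, by omega⟩, Finset.mem_univ _⟩ fun i _ => hcon i
    rw [Finset.sum_const, Finset.card_univ, Fintype.card_fin, nsmul_eq_mul, hys] at h1
    have h2 : ((d * H2 : ℕ) : ℤ) ≤ R := by exact_mod_cast hR2
    push_cast at h2
    omega
  obtain ⟨i1, hi1⟩ : ∃ i1 : Fin d, i1 ≠ i2 := by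
    have : Nontrivial (Fin d) := Fin.nontrivial_iff_two_le.2 hd
    exact exists_ne i2
  have hyi2 := abs_le_nm y i2
  -- phase 0
  have s0 : St a b n k R y y 0 := by
    refine ⟨by rw [hy]; push_cast; linarith, Walk.nil, rfl, fun w hw => ?_⟩
    rw [Walk.support_nil, List.mem_singleton] at hw
    subst hw
    refine ⟨by rw [hy]; omega, Walk.nil, by simp, ?_⟩
    rw [hy]
    simp
  -- phase 1: outwards in the direction `i1`
  set u1 : Fin d → ℤ := Function.update y i1 (if 0 ≤ y i1 then y i1 + H else y i1 - H) with hu1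
  have d1 : dom y u1 := by
    intro j
    by_cases hj : j = i1
    · subst hj
      rw [hu1, Function.update_self]
      split_ifs with h
      · exact Or.inl ⟨h, by omega⟩
      · exact Or.inr ⟨by omega, by omega⟩
    · rw [hu1, Function.update_of_ne hj]
      exact dom_refl y j
  have n1 : nm u1 = k + 1 + H := by
    rw [hu1, nm_update, hy]
    split_ifs with h
    · rw [abs_of_nonneg h, abs_of_nonneg (by omega)]
      ring
    · rw [abs_of_neg (by omega), abs_of_neg (by omega)]
      ring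
  have s1 := St.out ha hab hRn (w := u1) (by rw [n1]; omega) H y 0 d1 (by rw [n1, hy]; ring) s0
  have hu1i2 : u1 i2 = y i2 := by rw [hu1, Function.update_of_ne hi1.symm]
  -- phase 2a: coordinate `i2` to zero
  set u2 : Fin d → ℤ := Function.update u1 i2 0 with hu2
  have d2 : dom u2 u1 := by
    intro j
    by_cases hj : j = i2
    · subst hj
      rw [hu2, Function.update_self]
      rcases le_total 0 (u1 j) with h | h
      · exact Or.inl ⟨le_rfl, h⟩
      · exact Or.inr ⟨h, le_rfl⟩
    · rw [hu2, Function.update_of_ne hj]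
      exact dom_refl u1 j
  have n2 : nm u2 = k + 1 + H - |y i2| := by
    rw [hu2, nm_update, n1, hu1i2, abs_zero]
    ring
  obtain ⟨m, hm⟩ : ∃ m : ℕ, |y i2| = m := ⟨(y i2).natAbs, by simp⟩
  have hmk : (m : ℤ) ≤ k + 1 := by rw [← hm, ← hy]; exact hyi2
  have hmk' : (m : ℝ) ≤ k + 1 := by exact_mod_cast hmk
  have s2 := St.inn ha hab hRn m u1 (0 + H) d2 (by rw [n1, n2, hm]; ring) (by rw [n1]; omega) (by
    rw [n2, hm]
    push_cast
    have e1 : a * (0 + (H : ℝ) + m) ≤ a * ((H : ℝ) + k + 1) :=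
      mul_le_mul_of_nonneg_left (by linarith) ha.le
    have e2 : b * ((H : ℝ) - k - 1) ≤ b * ((k : ℝ) + 1 + H - m - k - 1) :=
      mul_le_mul_of_nonneg_left (by linarith) (ha.trans hab).le
    linarith) s1
  -- phase 2b: coordinate `i2` to `± H2`
  set c : ℤ := if 0 ≤ ys i2 then H2 else -H2 with hc
  have hcabs : |c| = H2 := by
    rw [hc]
    split_ifs
    · simp
    · rw [abs_neg]; simp
  set u3 : Fin d → ℤ := Function.update u2 i2 c with hu3
  have hu2i2 : u2 i2 = 0 := by rw [hu2, Function.update_self]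
  have d3 : dom u2 u3 := by
    intro j
    by_cases hj : j = i2
    · subst hj
      rw [hu3, Function.update_self, hu2i2]
      rcases le_total 0 c with h | h
      · exact Or.inl ⟨le_rfl, h⟩
      · exact Or.inr ⟨h, le_rfl⟩
    · rw [hu3, Function.update_of_ne hj]
      exact dom_refl u2 j
  have n3 : nm u3 = k + 1 + H - m + H2 := by
    rw [hu3, nm_update, n2, hu2i2, hcabs, hm, abs_zero]
    ring
  have s3 := St.out ha hab hRn (w := u3) (by rw [n3]; omega) H2 u2 (0 + H + m) d3
    (by rw [n3, n2, hm]; ring) s2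
  -- phase 3: all other coordinates to zero
  set u4 : Fin d → ℤ := Function.update 0 i2 c with hu4
  have d4 : dom u4 u3 := by
    intro j
    by_cases hj : j = i2
    · subst hj
      rw [hu4, hu3, Function.update_self, Function.update_self]
      rcases le_total 0 c with h | h
      · exact Or.inl ⟨h, le_rfl⟩
      · exact Or.inr ⟨le_rfl, h⟩
    · rw [hu4, Function.update_of_ne hj]
      exact dom_zero u3 j
  have n4 : nm u4 = H2 := by
    rw [hu4, nm_update, nm_zero, hcabs]
    simp
  obtain ⟨t, ht⟩ : ∃ t : ℕ, (k : ℤ) + 1 + H - m = t := ⟨k + 1 + H - m, by omega⟩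
  have ht' : (t : ℝ) = k + 1 + H - m := by exact_mod_cast ht.symm
  have s4 := St.inn ha hab hRn (u := u4) t u3 (0 + H + m + H2) d4 (by rw [n3, n4, ← ht]; ring)
    (by rw [n3]; omega) (by
    rw [n4]
    push_cast
    rw [ht']
    have e1 : a * (0 + (H : ℝ) + m + H2 + (k + 1 + H - m)) = a * ((H2 : ℝ) + 2 * H + k + 1) := by
      ring
    rw [e1]
    exact hH2) s3
  -- phase 4: outwards to the target
  have d5 : dom u4 ys := by
    intro j
    by_cases hj : j = i2
    · subst hj
      rw [hu4, Function.update_self, hc]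
      split_ifs with h
      · rw [abs_of_nonneg h] at hi2
        exact Or.inl ⟨by omega, hi2⟩
      · rw [abs_of_neg (by omega)] at hi2
        exact Or.inr ⟨by omega, by omega⟩
    · rw [hu4, Function.update_of_ne hj]
      exact dom_zero ys j
  obtain ⟨t', ht5⟩ : ∃ t' : ℕ, (R : ℤ) - H2 = t' := ⟨R - H2, by omega⟩
  exact ⟨_, St.out ha hab hRn (w := ys) (by rw [hys]) t' u4 _ d5 (by rw [hys, n4, ht5]) s4⟩

end Q292.Ess
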