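import Mathlib
import Pool.Agent.Q292.Ess.Geom

/-!
# Local modification making a fixed edge semi-essential with passage time `b`
-/

namespace Q292.Ess

open SimpleGraph

variable {d n : ℕ} {a b : ℝ}

/-- both endpoints lie in the ball of radius `R` -/
def inside (R : ℤ) (e : Sym2 (Fin d → ℤ)) : Prop := ∀ z ∈ e, nm z ≤ R

/-- no edge inside the ball of radius `R` -/
def Out (R : ℤ) {u w : Fin d → ℤ} (p : (G d n).Walk u w) : Prop := ∀ e ∈ p.edges, ¬ inside R e

theorem lastExit (ha : 0 < a) (hab : a < b) (ω : Cfg d n) (R : ℤ) {u w : Fin d → ℤ}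
    (p : (G d n).Walk u w) (hw : R < nm w) :
    ((∀ z ∈ p.support, R < nm z) ∧ Out R p) ∨ ∃ y', nm y' = R ∧ ∃ q : (G d n).Walk y' w, Out R q ∧
      T a b ω q ≤ T a b ω p := by
  induction p with
  | nil =>
    left
    refine ⟨fun z hz => ?_, fun e he => by simp at he⟩
    rw [Walk.support_nil, List.mem_singleton] at hz
    rw [hz]
    exact hw
  | cons hadj p ih =>
    rename_i u v w
    rcases ih hw with ⟨h1, h2⟩ | ⟨y', h1, q, h2, h3⟩
    · have hv : R < nm v := h1 v p.start_mem_support
      have hout : Out R (Walk.cons hadj p) := by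
        intro e he
        rw [Walk.edges_cons, List.mem_cons] at he
        rcases he with rfl | he
        · intro hin
          have := hin v (Sym2.mem_mk_right u v)
          omega
        · exact h2 e he
      by_cases hu : R < nm u
      · left
        refine ⟨fun z hz => ?_, hout⟩
        rw [Walk.support_cons, List.mem_cons] at hz
        rcases hz with rfl | hz
        · exact hu
        · exact h1 z hz
      · right
        refine ⟨u, ?_, Walk.cons hadj p, hout, le_rfl⟩
        rcases nm_adj hadj.2.2 with h | h <;> omega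
    · right
      refine ⟨y', h1, q, h2, h3.trans ?_⟩
      rw [T_cons]
      have := tm_nonneg (n := n) ha hab ω s(u, v)
      linarith

theorem firstHit (ω : Cfg d n) (X : Set (Fin d → ℤ)) (R : ℤ) (φ : (Fin d → ℤ) → ℝ)
    (hX : ∀ z, R ≤ nm z → z ∈ X)
    (hφ : ∀ u u', (G d n).Adj u u' → u ∉ X → φ u' - φ u ≤ tm a b ω s(u, u'))
    {u w : Fin d → ℤ} (p : (G d n).Walk u w) (hw : w ∈ X) (hu : nm u ≤ R) :
    ∃ z ∈ X, nm z ≤ R ∧ ∃ q : (G d n).Walk z w, φ z - φ u + T a b ω q ≤ T a b ω p := by
  induction p with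
  | nil => exact ⟨_, hw, hu, Walk.nil, by simp⟩
  | cons hadj p ih =>
    rename_i u v w
    by_cases huX : u ∈ X
    · exact ⟨u, huX, hu, Walk.cons hadj p, by simp⟩
    · have hu' : nm u < R := by
        by_contra hcon
        exact huX (hX u (not_lt.1 hcon))
      have hv : nm v ≤ R := by
        rcases nm_adj hadj.2.2 with h | h <;> omega
      obtain ⟨z, hz, hzR, q, hq⟩ := ih hw hv
      refine ⟨z, hz, hzR, q, ?_⟩
      have := hφ u v hadj huX
      rw [T_cons]
      linarith

open Classical in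
/-- the configuration `ω` outside the ball, and inside the ball `a` exactly on `A` -/
noncomputable def modify (R : ℤ) (A : Set (Sym2 (Fin d → ℤ))) (ω : Cfg d n) : Cfg d n :=
  fun e => if inside R (e : Sym2 (Fin d → ℤ)) then decide ((e : Sym2 (Fin d → ℤ)) ∈ A) else ω e

theorem tm_modify_in {R : ℤ} {A : Set (Sym2 (Fin d → ℤ))} (ω : Cfg d n) {e : Sym2 (Fin d → ℤ)}
    (he : e ∈ (G d n).edgeSet) (hin : inside R e) (hA : e ∈ A) : tm a b (modify R A ω) e = a := by
  rw [tm_cases _ he, modify]
  simp [hin, hA]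

theorem tm_modify_notin {R : ℤ} {A : Set (Sym2 (Fin d → ℤ))} (ω : Cfg d n) {e : Sym2 (Fin d → ℤ)}
    (he : e ∈ (G d n).edgeSet) (hin : inside R e) (hA : e ∉ A) : tm a b (modify R A ω) e = b := by
  rw [tm_cases _ he, modify]
  simp [hin, hA]

theorem tm_modify_out {R : ℤ} {A : Set (Sym2 (Fin d → ℤ))} (ω : Cfg d n) {e : Sym2 (Fin d → ℤ)}
    (hin : ¬ inside R e) : tm a b (modify R A ω) e = tm a b ω e := by
  by_cases he : e ∈ (G d n).edgeSet
  · rw [tm_cases _ he, tm_cases _ he, modify]
    simp [hin]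
  · rw [tm, tm, dif_neg he, dif_neg he]

theorem T_modify_in {R : ℤ} {A : Set (Sym2 (Fin d → ℤ))} (ω : Cfg d n) {u w : Fin d → ℤ}
    (p : (G d n).Walk u w) (h : ∀ e ∈ p.edges, inside R e ∧ e ∈ A) :
    T a b (modify R A ω) p = a * p.length := by
  induction p with
  | nil => simp
  | cons hadj p ih =>
    rename_i u v w
    rw [T_cons, ih (fun e he => h e (by simp [he])),
      tm_modify_in ω hadj (h s(u, v) (by simp)).1 (h s(u, v) (by simp)).2, Walk.length_cons]
    push_cast
    ring

theorem T_modify_out {R : ℤ} {A : Set (Sym2 (Fin d → ℤ))} (ω : Cfg d n) {u w : Fin d → ℤ}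
    (p : (G d n).Walk u w) (h : Out R p) : T a b (modify R A ω) p = T a b ω p := by
  unfold T
  congr 1
  exact List.map_congr_left fun e he => tm_modify_out ω (h e he)

theorem inside_of_support {R : ℤ} {u w : Fin d → ℤ} (p : (G d n).Walk u w)
    (h : ∀ z ∈ p.support, nm z ≤ R) : ∀ e ∈ p.edges, inside R e :=
  fun _ he z hz => h z (Walk.mem_support_of_mem_edges he hz)

/-- The local modification. -/
theorem modif (ha : 0 < a) (hab : a < b) (hd : 2 ≤ d) {v : Fin d → ℤ} {k H H2 R : ℕ}
    (hH : a * ((H : ℝ) + k + 1) ≤ b * ((H : ℝ) - k - 1))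
    (hH2 : a * ((H2 : ℝ) + 2 * H + k + 1) ≤ b * ((H2 : ℝ) - k - 1))
    (hR1 : k + 1 + H + H2 ≤ R) (hR2 : d * H2 ≤ R) (hRn : (R : ℤ) ≤ 2 * n)
    (hv : (R : ℤ) < nm (n • v)) (hvn : ∀ i, |(n • v) i| ≤ 2 * n) {x y : Fin d → ℤ}
    (hx : nm x = k) (hy : nm y = k + 1) (hxy : (G d n).Adj x y) (j : W d n)
    (hj : (j : Sym2 (Fin d → ℤ)) = s(x, y)) (ω : Cfg d n) :
    ∃ ω' : Cfg d n, (∀ e : W d n, ¬ inside R (e : Sym2 (Fin d → ℤ)) → ω' e = ω e) ∧
      ω' j = false ∧ ω' ∈ SemiEssential a b v j := by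
  classical
  have hb : 0 < b := ha.trans hab
  -- some walk from the origin to the target
  obtain ⟨Γ0, -, -⟩ := outWalk (n := n) hvn (nm (n • v)).toNat 0 (dom_zero _) (by
    rw [nm_zero]
    have := nm_nonneg (n • v)
    omega)
  -- the cheapest walk outside the ball
  let X := {P : Σ y' : Fin d → ℤ, (G d n).Walk y' (n • v) // nm P.1 = R ∧ Out R P.2}
  have hlast : ∀ (ω : Cfg d n) {u : Fin d → ℤ} (p : (G d n).Walk u (n • v)), nm u ≤ R →
      ∃ P : X, T a b ω P.1.2 ≤ T a b ω p := by
    intro ω u p hu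
    rcases lastExit ha hab ω R p hv with ⟨h, -⟩ | ⟨y', h1, q, h2, h3⟩
    · have := h u p.start_mem_support
      omega
    · exact ⟨⟨⟨y', q⟩, h1, h2⟩, h3⟩
  have hXne : Nonempty X := ⟨(hlast ω Γ0 (by rw [nm_zero]; positivity)).choose⟩
  obtain ⟨⟨⟨ys, γs⟩, hys, hγs⟩, hmin⟩ := attained ha hb (fun P : X => T a b ω P.1.2)
    (fun P => T_count ω P.1.2)
  simp only at hys hγs hmin
  -- the walk from the origin to `x`
  obtain ⟨Γb, hΓbl, hΓb⟩ := outWalk (n := n) (w := x)
    (fun i => (abs_le_nm x i).trans (by omega)) k 0 (dom_zero _) (by rw [nm_zero, hx]; ring)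
  rw [hx] at hΓb
  -- the detour
  obtain ⟨l, hl, Γa, hΓal, hΓa⟩ := detour ha hab hd hH hH2 hR1 hR2 hRn hy hys
  simp only [Int.cast_natCast] at hl hΓa
  have hΓak : ∀ w ∈ Γa.support, (k : ℤ) + 1 ≤ nm w := by
    intro w hw
    obtain ⟨-, q, -, hq⟩ := hΓa w hw
    have h1 : 0 ≤ a * (q.length : ℝ) := by positivity
    have h2 : 0 ≤ (nm w : ℝ) - k - 1 := by
      by_contra hcon
      push Not at hcon
      have := mul_neg_of_pos_of_neg hb hcon
      linarith
    have h3 : ((k : ℤ) + 1 : ℝ) ≤ nm w := by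
      push_cast
      linarith
    exact_mod_cast h3
  have hΓaR : ∀ w ∈ Γa.support, nm w ≤ R := fun w hw => (hΓa w hw).1
  set A : Set (Sym2 (Fin d → ℤ)) := {e | e ∈ Γb.edges ∨ e ∈ Γa.edges} with hA
  set ω' := modify (R : ℤ) A ω with hω'
  have hjin : inside (R : ℤ) (j : Sym2 (Fin d → ℤ)) := by
    rw [hj]
    intro z hz
    rw [Sym2.mem_iff] at hz
    rcases hz with rfl | rfl <;> omega
  have hjA : (j : Sym2 (Fin d → ℤ)) ∉ A := by
    rw [hj]
    rintro (h | h)
    · have := hΓb y (Walk.mem_support_of_mem_edges h (Sym2.mem_mk_right x y))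
      omega
    · have := hΓak x (Walk.mem_support_of_mem_edges h (Sym2.mem_mk_left x y))
      omega
  have hAb : ∀ e ∈ Γb.edges, inside (R : ℤ) e ∧ e ∈ A := fun e he =>
    ⟨inside_of_support Γb (fun z hz => by
      have := hΓb z hz
      omega) e he, Or.inl he⟩
  have hAa : ∀ e ∈ Γa.edges, inside (R : ℤ) e ∧ e ∈ A := fun e he =>
    ⟨inside_of_support Γa hΓaR e he, Or.inr he⟩
  have hTb : T a b ω' Γb = a * k := by
    rw [hω', T_modify_in ω Γb hAb, hΓbl]
  have hTj : tm a b ω' s(x, y) = b := by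
    rw [← hj]
    exact tm_modify_notin ω j.2 hjin hjA
  -- walks through `j` to a vertex of the detour
  have hthrough : ∀ w ∈ Γa.support, ∀ p : (G d n).Walk w (n • v), ∃ γ' : (G d n).Walk 0 (n • v),
      (j : Sym2 (Fin d → ℤ)) ∈ γ'.edges ∧
        T a b ω' γ' ≤ a * k + b * ((nm w : ℝ) - k) + T a b ω' p := by
    intro w hw p
    obtain ⟨-, q, hqe, hq⟩ := hΓa w hw
    refine ⟨Γb.append (Walk.cons hxy (q.append p)), ?_, ?_⟩
    · rw [hj]
      simp
    · have hTq : T a b ω' q = a * q.length := T_modify_in ω q (fun e he => hAa e (hqe e he))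
      rw [T_append, T_cons, T_append, hTb, hTj, hTq]
      linarith
  refine ⟨ω', fun e he => ?_, ?_, ?_⟩
  · rw [hω', modify, if_neg he]
  · rw [hω', modify, if_pos hjin]
    simp [hjA]
  refine semi_of_replace ha hab Γ0 fun γ _ => ?_
  -- the potential
  set φ : (Fin d → ℤ) → ℝ := fun z => if nm z ≤ k then a * nm z else a * k + b * ((nm z : ℝ) - k)
    with hφ
  have hφ0 : φ 0 = 0 := by
    rw [hφ]
    simp [nm_zero]
  obtain ⟨z, hzX, hzR, q, hq⟩ := firstHit (a := a) (b := b) ω' {z | z ∈ Γa.support ∨ (R : ℤ) ≤ nm z}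
    R φ (fun z hz => Or.inr hz) (by
      intro u u' hadj hu
      have hu1 : u ∉ Γa.support := fun h => hu (Or.inl h)
      have hu2 : nm u < R := not_le.1 fun h => hu (Or.inr h)
      have hin : inside (R : ℤ) s(u, u') := by
        intro z hz
        rw [Sym2.mem_iff] at hz
        rcases hz with rfl | rfl
        · exact hu2.le
        · rcases nm_adj hadj.2.2 with h | h <;> omega
      have hbound := tm_ge (b := b) hab ω' (show s(u, u') ∈ (G d n).edgeSet from hadj)
      by_cases hk : nm u ≤ k ∧ nm u' ≤ k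
      · rw [hφ]
        simp only [if_pos hk.1, if_pos hk.2]
        have h1 : (nm u' : ℝ) ≤ nm u + 1 := by
          rcases nm_adj hadj.2.2 with h | h
          · rw [h]; push_cast; linarith
          · rw [h]; push_cast; linarith
        have h2 : a * (nm u' : ℝ) ≤ a * (nm u + 1) := mul_le_mul_of_nonneg_left h1 ha.le
        linarith
      · have hnA : s(u, u') ∉ A := by
          rintro (h | h)
          · refine hk ⟨?_, ?_⟩
            · exact hΓb u (Walk.mem_support_of_mem_edges h (Sym2.mem_mk_left u u'))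
            · exact hΓb u' (Walk.mem_support_of_mem_edges h (Sym2.mem_mk_right u u'))
          · exact hu1 (Walk.mem_support_of_mem_edges h (Sym2.mem_mk_left u u'))
        have hT : tm a b ω' s(u, u') = b :=
          tm_modify_notin ω (show s(u, u') ∈ (G d n).edgeSet from hadj) hin hnA
        rw [hT]
        -- `φ` is `b`-Lipschitz
        have hmono : ∀ s t : ℤ, s ≤ t → t ≤ s + 1 →
            (if t ≤ k then a * (t : ℝ) else a * k + b * ((t : ℝ) - k)) -
            (if s ≤ k then a * (s : ℝ) else a * k + b * ((s : ℝ) - k)) ≤ b ∧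
            (if s ≤ k then a * (s : ℝ) else a * k + b * ((s : ℝ) - k)) ≤
            (if t ≤ k then a * (t : ℝ) else a * k + b * ((t : ℝ) - k)) := by
          intro s t h1 h2
          have h1' : (s : ℝ) ≤ t := by exact_mod_cast h1
          have h2' : (t : ℝ) ≤ s + 1 := by exact_mod_cast h2
          split_ifs with h3 h4 h4
          · have e1 : a * (t : ℝ) ≤ a * (s + 1) := mul_le_mul_of_nonneg_left h2' ha.le
            have e2 : a * (s : ℝ) ≤ a * t := mul_le_mul_of_nonneg_left h1' ha.le
            constructor <;> linarith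
          · omega
          · have h5 : t = k + 1 := by omega
            have h6 : s = k := by omega
            subst h5 h6
            push_cast
            constructor <;> nlinarith
          · have e1 : b * (t : ℝ) ≤ b * (s + 1) := mul_le_mul_of_nonneg_left h2' hb.le
            have e2 : b * (s : ℝ) ≤ b * t := mul_le_mul_of_nonneg_left h1' hb.le
            constructor <;> linarith
        rcases nm_adj hadj.2.2 with h | h
        · exact (hmono (nm u) (nm u') (by omega) (by omega)).1
        · have := (hmono (nm u') (nm u) (by omega) (by omega)).2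
          change (if nm u' ≤ k then a * (nm u' : ℝ) else a * k + b * ((nm u' : ℝ) - k)) -
            (if nm u ≤ k then a * (nm u : ℝ) else a * k + b * ((nm u : ℝ) - k)) ≤ b
          linarith) γ (Or.inr hv.le) (by rw [nm_zero]; positivity)
  rw [hφ0] at hq
  rcases hzX with hz | hz
  · obtain ⟨γ', h1, h2⟩ := hthrough z hz q
    refine ⟨γ', h1, h2.trans ?_⟩
    have hφz : φ z = a * k + b * ((nm z : ℝ) - k) := by
      have := hΓak z hz
      rw [hφ]
      simp only
      rw [if_neg (by omega)]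
    rw [hφz] at hq
    linarith
  · have hzR' : nm z = R := by
      have h' : (R : ℤ) ≤ nm z := hz
      omega
    obtain ⟨P, hP⟩ := hlast ω' q (by omega)
    have hP1 : T a b ω' P.1.2 = T a b ω P.1.2 := T_modify_out ω _ P.2.2
    have hP2 := hmin P
    obtain ⟨γ', h1, h2⟩ := hthrough ys Γa.end_mem_support γs
    refine ⟨γ', h1, h2.trans ?_⟩
    have hTs : T a b ω' γs = T a b ω γs := T_modify_out ω γs hγs
    rw [hTs, hys]
    have hφz : φ z = a * k + b * ((R : ℝ) - k) := by
      rw [hφ]
      simp only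
      rw [if_neg (by omega), hzR']
      push_cast
      ring
    rw [hφz] at hq
    push_cast
    linarith

end Q292.Ess
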