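import Mathlib
import Pool.Agent.Q292.Ess.Defs

/-!
# Local modifications on a finite product space
-/

namespace Q292.Ess

open MeasureTheory ProbabilityTheory

variable {ι : Type*}

/-- the weights of the two values -/
noncomputable def wt (p : unitInterval) (x : Bool) : ℝ := if x then (p : ℝ) else 1 - p

theorem bern_singleton (p : unitInterval) (x : Bool) :
    (bernoulliMeasure true false p).real {x} = wt p x := by
  cases x
  · rw [bernoulliMeasure_real_apply p (measurableSet_singleton _)]
    simp [wt]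
  · rw [bernoulliMeasure_real_apply p (measurableSet_singleton _)]
    simp [wt]

theorem mu_singleton [Fintype ι] (p : unitInterval) (ω : ι → Bool) :
    (Measure.infinitePi fun _ : ι => bernoulliMeasure true false p).real {ω} =
      ∏ e, wt p (ω e) := by
  rw [Measure.real, Measure.infinitePi_singleton_of_fintype, ENNReal.toReal_prod]
  exact Finset.prod_congr rfl fun e _ => bern_singleton p (ω e)

theorem wt_nonneg (p : unitInterval) (x : Bool) : 0 ≤ wt p x := by
  unfold wt
  split_ifs
  · exact p.2.1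
  · linarith [p.2.2]

theorem wt_le_one (p : unitInterval) (x : Bool) : wt p x ≤ 1 := by
  unfold wt
  split_ifs
  · exact p.2.2
  · linarith [p.2.1]

theorem wt_ge (p : unitInterval) (x : Bool) : min (p : ℝ) (1 - p) ≤ wt p x := by
  unfold wt
  split_ifs
  · exact min_le_left _ _
  · exact min_le_right _ _

theorem real_eq_sum [Fintype ι] (μ : Measure (ι → Bool)) [IsProbabilityMeasure μ]
    (S : Finset (ι → Bool)) : μ.real (S : Set (ι → Bool)) = ∑ ω ∈ S, μ.real {ω} := by
  rw [Measure.real, ← sum_measure_singleton, ENNReal.toReal_sum (fun _ _ => measure_ne_top _ _)]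
  rfl

/-- If every configuration can be moved into `S` by changing coordinates in `F` only, then `S` has
probability at least `(q / 2) ^ |F|`. -/
theorem prob_lower [Fintype ι] (p : unitInterval) (S : Set (ι → Bool))
    (F : Finset ι) (h : ∀ ω : ι → Bool, ∃ ω' ∈ S, ∀ e, e ∉ F → ω' e = ω e) :
    (min (p : ℝ) (1 - p) / 2) ^ F.card ≤
      (Measure.infinitePi fun _ : ι => bernoulliMeasure true false p).real S := by
  classical
  set μ := Measure.infinitePi fun _ : ι => bernoulliMeasure true false p with hμ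
  set q : ℝ := min (p : ℝ) (1 - p) with hq
  have hq0 : 0 ≤ q := le_min p.2.1 (by linarith [p.2.2])
  choose Φ hΦS hΦ using h
  have hpt : ∀ ω : ι → Bool, q ^ F.card * μ.real {ω} ≤ μ.real {Φ ω} := by
    intro ω
    rw [hμ, mu_singleton, mu_singleton, ← Finset.prod_mul_prod_compl F,
      ← Finset.prod_mul_prod_compl F (fun e => wt p (Φ ω e))]
    have h1 : q ^ F.card ≤ ∏ e ∈ F, wt p (Φ ω e) := by
      rw [← Finset.prod_const]
      exact Finset.prod_le_prod (fun _ _ => hq0) (fun e _ => wt_ge p _)
    have h2 : ∏ e ∈ F, wt p (ω e) ≤ 1 :=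
      Finset.prod_le_one (fun e _ => wt_nonneg p _) (fun e _ => wt_le_one p _)
    have h3 : ∏ e ∈ Fᶜ, wt p (Φ ω e) = ∏ e ∈ Fᶜ, wt p (ω e) :=
      Finset.prod_congr rfl fun e he => by rw [hΦ ω e (Finset.mem_compl.1 he)]
    have h4 : 0 ≤ ∏ e ∈ Fᶜ, wt p (ω e) := Finset.prod_nonneg fun e _ => wt_nonneg p _
    have h5 : 0 ≤ ∏ e ∈ F, wt p (ω e) := Finset.prod_nonneg fun e _ => wt_nonneg p _
    rw [h3]
    have h6 : 0 ≤ q ^ F.card := pow_nonneg hq0 _
    calc q ^ F.card * ((∏ e ∈ F, wt p (ω e)) * ∏ e ∈ Fᶜ, wt p (ω e))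
        ≤ q ^ F.card * (1 * ∏ e ∈ Fᶜ, wt p (ω e)) := by gcongr
      _ ≤ (∏ e ∈ F, wt p (Φ ω e)) * ∏ e ∈ Fᶜ, wt p (ω e) := by
        rw [one_mul]
        gcongr
  have htot : ∑ ω : ι → Bool, μ.real {ω} = 1 := by
    have := real_eq_sum μ (Finset.univ)
    rw [Finset.coe_univ, probReal_univ] at this
    exact this.symm
  have hSfin : μ.real S = ∑ s ∈ S.toFinset, μ.real {s} := by
    rw [← real_eq_sum, Set.coe_toFinset]
  have hfib : ∀ s : ι → Bool, ((Finset.univ.filter fun ω => Φ ω = s).card : ℝ) ≤ 2 ^ F.card := by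
    intro s
    have hsub : (Finset.univ.filter fun ω => Φ ω = s) ⊆
        (Finset.univ : Finset (F → Bool)).image
          (fun g => fun e => if he : e ∈ F then g ⟨e, he⟩ else s e) := by
      intro ω hω
      rw [Finset.mem_filter] at hω
      rw [Finset.mem_image]
      refine ⟨fun e => ω e, Finset.mem_univ _, ?_⟩
      funext e
      by_cases he : e ∈ F
      · rw [dif_pos he]
      · rw [dif_neg he, ← hω.2, hΦ ω e he]
    have h1 := (Finset.card_le_card hsub).trans Finset.card_image_le
    rw [Finset.card_univ, Fintype.card_fun, Fintype.card_bool, Fintype.card_coe] at h1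
    exact_mod_cast h1
  have h1 : q ^ F.card ≤ ∑ ω : ι → Bool, μ.real {Φ ω} := by
    calc q ^ F.card = ∑ ω : ι → Bool, q ^ F.card * μ.real {ω} := by
          rw [← Finset.mul_sum, htot, mul_one]
      _ ≤ _ := Finset.sum_le_sum fun ω _ => hpt ω
  have h2 : ∑ ω : ι → Bool, μ.real {Φ ω} ≤ 2 ^ F.card * μ.real S := by
    rw [← Finset.sum_fiberwise_of_maps_to (s := Finset.univ) (t := S.toFinset) (g := Φ)
      (fun ω _ => Set.mem_toFinset.2 (hΦS ω)), hSfin, Finset.mul_sum]
    refine Finset.sum_le_sum fun s _ => ?_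
    rw [Finset.sum_congr rfl (g := fun _ => μ.real {s}) (fun ω hω => by
      rw [(Finset.mem_filter.1 hω).2]), Finset.sum_const, nsmul_eq_mul]
    exact mul_le_mul_of_nonneg_right (hfib s) measureReal_nonneg
  rw [div_pow, div_le_iff₀ (by positivity), mul_comm]
  exact h1.trans h2

/-- Singletons have positive probability. -/
theorem prob_pos [Fintype ι] (p : unitInterval) (h0 : 0 < (p : ℝ)) (h1 : (p : ℝ) < 1)
    (S : Set (ι → Bool)) (ω : ι → Bool) (hω : ω ∈ S) :
    0 < (Measure.infinitePi fun _ : ι => bernoulliMeasure true false p).real S := by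
  have h2 : 0 < (Measure.infinitePi fun _ : ι => bernoulliMeasure true false p).real {ω} := by
    rw [mu_singleton]
    refine Finset.prod_pos fun e _ => ?_
    unfold wt
    split_ifs
    · exact h0
    · linarith
  exact h2.trans_le (measureReal_mono (Set.singleton_subset_iff.2 hω))

end Q292.Ess
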