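import Mathlib
import Pool.Agent.Q292.Ess.Fixed
import Pool.Agent.Q292.Ess.Prob

/-!
# Comparability for a fixed edge
-/

namespace Q292.Ess

open SimpleGraph MeasureTheory ProbabilityTheory

variable {d n : ℕ} {a b : ℝ}

theorem sym2_finite {α : Type*} {S : Set α} (hS : S.Finite) :
    {e : Sym2 α | ∀ z ∈ e, z ∈ S}.Finite := by
  refine ((hS.prod hS).image fun p : α × α => s(p.1, p.2)).subset ?_
  intro e he
  induction e using Sym2.ind with
  | _ x y =>
    have he' : ∀ z ∈ s(x, y), z ∈ S := he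
    exact ⟨(x, y), ⟨he' x (Sym2.mem_mk_left x y), he' y (Sym2.mem_mk_right x y)⟩, rfl⟩

theorem box_finite (d : ℕ) (K : ℤ) : {x : Fin d → ℤ | ∀ i, |x i| ≤ K}.Finite := by
  refine (Set.finite_Icc (fun _ : Fin d => -K) (fun _ => K)).subset fun x hx => ?_
  have hx' : ∀ i, |x i| ≤ K := hx
  exact ⟨fun i => (abs_le.1 (hx' i)).1, fun i => (abs_le.1 (hx' i)).2⟩

instance W_finite (d n : ℕ) : Finite (W d n) := by
  refine Set.Finite.to_subtype ((sym2_finite (box_finite d (2 * n))).subset ?_)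
  intro e he
  induction e using Sym2.ind with
  | _ x y =>
    have h : (G d n).Adj x y := he
    intro z hz
    rw [Sym2.mem_iff] at hz
    rcases hz with rfl | rfl
    · exact h.1
    · exact h.2.1

noncomputable instance W_fintype (d n : ℕ) : Fintype (W d n) := Fintype.ofFinite _

theorem inside_finite (d : ℕ) (R : ℤ) : {e : Sym2 (Fin d → ℤ) | inside R e}.Finite := by
  refine (sym2_finite (box_finite d R)).subset fun e he z hz i => ?_
  have he' : inside R e := he
  exact (abs_le_nm z i).trans (he' z hz)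

theorem nm_nsmul (m : ℕ) (v : Fin d → ℤ) : nm (m • v) = m * nm v := by
  unfold nm
  rw [Finset.mul_sum]
  refine Finset.sum_congr rfl fun i _ => ?_
  simp [abs_mul]

theorem nm_pos {v : Fin d → ℤ} (hv : v ≠ 0) : 1 ≤ nm v := by
  obtain ⟨i, hi⟩ := Function.ne_iff.1 hv
  have h1 := abs_le_nm v i
  have h2 : 0 < |v i| := abs_pos.2 hi
  omega

theorem fixed_aux (hd : 2 ≤ d) (ha : 0 < a) (hab : a < b) (p : unitInterval) (hp0 : 0 < (p : ℝ))
    (hp1 : (p : ℝ) < 1) {v : Fin d → ℤ} (hv : v ≠ 0) (hv2 : ∀ i, |v i| ≤ 2) {x y : Fin d → ℤ}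
    (hxy : (lattice d).Adj x y) (hlt : nm y = nm x + 1) :
    ∃ C : ℝ, ∃ n0 : ℕ, ∀ n ≥ n0, ∃ h : s(x, y) ∈ (G d n).edgeSet,
      1 ≤ C * (law d n p).real (VeryInfluential a b v ⟨s(x, y), h⟩) ∧
      1 ≤ C * (law d n p).real (Essential a b v ⟨s(x, y), h⟩) := by
  classical
  have hb : 0 < b := ha.trans hab
  obtain ⟨k, hk⟩ : ∃ k : ℕ, nm x = k := ⟨(nm x).toNat, by have := nm_nonneg x; omega⟩
  obtain ⟨H, hH⟩ := exists_nat_ge ((a + b) * ((k : ℝ) + 1) / (b - a))
  obtain ⟨H2, hH2⟩ := exists_nat_ge ((a * (2 * H + k + 1) + b * ((k : ℝ) + 1)) / (b - a))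
  rw [div_le_iff₀ (by linarith)] at hH hH2
  set R : ℕ := (k + 1 + H + H2) + d * H2 with hR
  set N0 : ℕ := {e : Sym2 (Fin d → ℤ) | inside (R : ℤ) e}.ncard with hN0
  set q : ℝ := min (p : ℝ) (1 - p) / 2 with hq
  have hq0 : 0 < q := by
    have : 0 < min (p : ℝ) (1 - p) := lt_min hp0 (by linarith)
    positivity
  have hq1 : q ≤ 1 := by
    have : min (p : ℝ) (1 - p) ≤ p := min_le_left _ _
    rw [hq]
    linarith
  have hc : 0 < q ^ N0 := pow_pos hq0 _
  refine ⟨(q ^ N0)⁻¹, R + 1, fun n hn => ?_⟩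
  have hxyn : (G d n).Adj x y := ⟨fun i => (abs_le_nm x i).trans (by rw [hk]; omega),
    fun i => (abs_le_nm y i).trans (by rw [hlt, hk]; omega), hxy⟩
  refine ⟨hxyn, ?_⟩
  set j : W d n := ⟨s(x, y), hxyn⟩ with hj
  have hmod := fun ω : Cfg d n => modif (R := R) (H := H) (H2 := H2) ha hab hd (v := v)
    (by linarith) (by linarith)
    (by omega) (by omega) (by omega) (by
      rw [nm_nsmul]
      have h1 := nm_pos hv
      have h2 : (n : ℤ) * 1 ≤ n * nm v := mul_le_mul_of_nonneg_left h1 (by positivity)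
      omega) (fun i => by
      rw [Pi.smul_apply, nsmul_eq_mul, abs_mul, Nat.abs_cast]
      have h2 : (n : ℤ) * |v i| ≤ n * 2 := mul_le_mul_of_nonneg_left (hv2 i) (by positivity)
      omega) hk (by rw [hlt, hk]) hxyn j rfl ω
  set F : Finset (W d n) := Finset.univ.filter fun e : W d n =>
    inside (R : ℤ) (e : Sym2 (Fin d → ℤ)) with hF
  have hFc : F.card ≤ N0 := by
    rw [hN0, ← Set.ncard_coe_finset F]
    refine Set.ncard_le_ncard_of_injOn (fun e : W d n => (e : Sym2 (Fin d → ℤ))) ?_ ?_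
      (inside_finite d R)
    · intro e he
      have he' : e ∈ F := he
      rw [hF, Finset.mem_filter] at he'
      exact he'.2
    · exact Subtype.val_injective.injOn
  have hlow : ∀ S : Set (Cfg d n), (∀ ω : Cfg d n, ∃ ω' ∈ S, ∀ e, e ∉ F → ω' e = ω e) →
      1 ≤ (q ^ N0)⁻¹ * (law d n p).real S := by
    intro S hS
    have h1 : q ^ F.card ≤ (law d n p).real S := prob_lower p S F hS
    have h2 : q ^ N0 ≤ q ^ F.card := pow_le_pow_of_le_one hq0.le hq1 hFc
    rw [inv_mul_eq_div, one_le_div hc]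
    exact h2.trans h1
  have hnF : ∀ e : W d n, e ∉ F → ¬ inside (R : ℤ) (e : Sym2 (Fin d → ℤ)) := by
    intro e he hin
    exact he (by rw [hF, Finset.mem_filter]; exact ⟨Finset.mem_univ _, hin⟩)
  refine ⟨hlow _ fun ω => ?_, hlow _ fun ω => ?_⟩
  · obtain ⟨ω', h1, h2, h3⟩ := hmod ω
    exact ⟨ω', (very_of_semi ha hab h2 h3).1, fun e he => h1 e (hnF e he)⟩
  · obtain ⟨ω', h1, h2, h3⟩ := hmod ω
    refine ⟨Function.update ω' j true, (very_of_semi ha hab h2 h3).2, fun e he => ?_⟩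
    have hej : e ≠ j := by
      rintro rfl
      refine hnF _ he ?_
      intro z hz
      have hz' : z ∈ s(x, y) := hz
      rw [Sym2.mem_iff] at hz'
      rcases hz' with rfl | rfl
      · rw [hk]; omega
      · rw [hlt, hk]; omega
    rw [Function.update_of_ne hej]
    exact h1 e (hnF e he)

/-- For every fixed edge the four probabilities are comparable, uniformly in `n`. -/
theorem fixed_edge (hd : 2 ≤ d) (ha : 0 < a) (hab : a < b) (p : unitInterval) (hp0 : 0 < (p : ℝ))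
    (hp1 : (p : ℝ) < 1) {v : Fin d → ℤ} (hv : v ≠ 0) (hv2 : ∀ i, |v i| ≤ 2)
    (e : (lattice d).edgeSet) :
    ∃ C : ℝ, ∃ n0 : ℕ, ∀ n ≥ n0, ∃ h : (e : Sym2 (Fin d → ℤ)) ∈ (G d n).edgeSet,
      (law d n p).real (Influential a b v ⟨e, h⟩) ≤
        C * (law d n p).real (VeryInfluential a b v ⟨e, h⟩) ∧
      (law d n p).real (SemiEssential a b v ⟨e, h⟩) ≤
        C * (law d n p).real (Essential a b v ⟨e, h⟩) ∧
      (law d n p).real (SemiEssential a b v ⟨e, h⟩) ≤
        C * (law d n p).real (VeryInfluential a b v ⟨e, h⟩) := by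
  have hprob : ∀ n, IsProbabilityMeasure (law d n p) := fun n => by
    unfold law
    infer_instance
  suffices h : ∃ C : ℝ, ∃ n0 : ℕ, ∀ n ≥ n0, ∃ h : (e : Sym2 (Fin d → ℤ)) ∈ (G d n).edgeSet,
      1 ≤ C * (law d n p).real (VeryInfluential a b v ⟨e, h⟩) ∧
      1 ≤ C * (law d n p).real (Essential a b v ⟨e, h⟩) by
    obtain ⟨C, n0, hC⟩ := h
    refine ⟨C, n0, fun n hn => ?_⟩
    obtain ⟨h, h1, h2⟩ := hC n hn
    have := hprob n
    exact ⟨h, measureReal_le_one.trans h1, measureReal_le_one.trans h2,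
      measureReal_le_one.trans h1⟩
  obtain ⟨e, he⟩ := e
  induction e using Sym2.ind with
  | _ x y =>
    have hxy : (lattice d).Adj x y := he
    rcases nm_adj hxy with h | h
    · exact fixed_aux hd ha hab p hp0 hp1 hv hv2 hxy h
    · have := fixed_aux hd ha hab p hp0 hp1 hv hv2 hxy.symm (by omega)
      rw [Sym2.eq_swap] at this
      exact this

end Q292.Ess
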