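import Mathlib
import Pool.Agent.Q292.Ess.FixedMain

/-!
# Edges which are semi-essential with positive probability but never very influential
-/

namespace Q292.Ess

open SimpleGraph MeasureTheory ProbabilityTheory

variable {d n : ℕ} {a b : ℝ}

theorem exists_fract_lt (α ρ : ℝ) (hρ : 0 < ρ) (N : ℕ) : ∃ n : ℕ, N ≤ n ∧ Int.fract (n * α) < ρ := by
  obtain ⟨M, hM⟩ := exists_nat_gt (1 / ρ)
  obtain ⟨k, hk0, -, hk⟩ := Real.exists_nat_abs_mul_sub_round_le α (Nat.succ_pos M)
  set δ : ℝ := k * α - round ((k : ℝ) * α) with hδ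
  have hδρ : |δ| < ρ := by
    refine hk.trans_lt ?_
    rw [div_lt_iff₀ (by positivity)]
    rw [div_lt_iff₀ hρ] at hM
    push_cast
    nlinarith
  have key : ∀ (t : ℕ) (K : ℤ), N ≤ t → (K : ℝ) ≤ t * δ → (t : ℝ) * δ < K + ρ → K + ρ ≤ K + 1 ∨ t * δ < K + 1 →
      ∃ n : ℕ, N ≤ n ∧ Int.fract (n * α) < ρ := by
    intro t K ht h1 h2 h3
    refine ⟨t * k, ht.trans (Nat.le_mul_of_pos_right t hk0), ?_⟩
    have h4 : ((t * k : ℕ) : ℝ) * α = t * δ + ((t * round ((k : ℝ) * α) : ℤ) : ℝ) := by
      rw [hδ]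
      push_cast
      ring
    rw [h4, Int.fract_add_intCast]
    have h5 : Int.fract ((t : ℝ) * δ) = t * δ - K := by
      rw [Int.fract_eq_iff]
      refine ⟨by linarith, ?_, K, by ring⟩
      rcases h3 with h3 | h3 <;> linarith
    rw [h5]
    linarith
  rcases lt_trichotomy δ 0 with h | h | h
  · -- negative
    have hδ' : 0 < -δ := by linarith
    rw [abs_of_neg h] at hδρ
    obtain ⟨K, hK⟩ := exists_nat_gt (((N : ℝ) + 1) * (-δ))
    set t : ℕ := ⌊(K : ℝ) / (-δ)⌋₊ with ht
    have h1 : (t : ℝ) ≤ (K : ℝ) / (-δ) := Nat.floor_le (by positivity)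
    have h2 : (K : ℝ) / (-δ) < t + 1 := Nat.lt_floor_add_one _
    rw [le_div_iff₀ hδ'] at h1
    rw [div_lt_iff₀ hδ'] at h2
    have h3 : -δ ≤ 1 := by
      have : |δ| ≤ 1 / 2 := abs_sub_round _
      rw [abs_of_neg h] at this
      linarith
    refine key t (-K) ?_ (by push_cast; linarith) (by push_cast; linarith) ?_
    · have h4 : ((N : ℝ) + 1) * (-δ) < (t + 1) * (-δ) := hK.trans h2
      have h5 := lt_of_mul_lt_mul_right h4 hδ'.le
      have h6 : (N : ℝ) < t := by linarith
      exact_mod_cast h6.le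
    · right
      push_cast
      linarith
  · refine key N 0 le_rfl (by rw [h]; simp) (by rw [h]; simpa using hρ) ?_
    right
    rw [h]
    simp
  · rw [abs_of_pos h] at hδρ
    obtain ⟨K, hK⟩ := exists_nat_gt ((N : ℝ) * δ)
    set t : ℕ := ⌈(K : ℝ) / δ⌉₊ with ht
    have h1 : (K : ℝ) / δ ≤ t := Nat.le_ceil _
    have h2 : (t : ℝ) < K / δ + 1 := Nat.ceil_lt_add_one (by positivity)
    rw [div_le_iff₀ h] at h1
    have h2' : (t : ℝ) * δ < K + δ := by
      have := mul_lt_mul_of_pos_right h2 h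
      rw [add_mul, div_mul_cancel₀ _ h.ne', one_mul] at this
      exact this
    have h3 : δ ≤ 1 := by
      have : |δ| ≤ 1 / 2 := abs_sub_round _
      rw [abs_of_pos h] at this
      linarith
    refine key t K ?_ (by push_cast; linarith) (by push_cast; linarith) ?_
    · have h4 : (N : ℝ) * δ < t * δ := hK.trans_le h1
      have h5 := lt_of_mul_lt_mul_right h4 h.le
      exact_mod_cast h5.le
    · right
      push_cast
      linarith

theorem adj_sub {x y : Fin d → ℤ} (h : (lattice d).Adj x y) (u : Fin d → ℤ) :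
    (lattice d).Adj (x - u) (y - u) := by
  change ∑ i, |(x - u) i - (y - u) i| = 1
  have h' : ∑ i, |x i - y i| = 1 := h
  rw [← h']
  refine Finset.sum_congr rfl fun i _ => ?_
  rw [Pi.sub_apply, Pi.sub_apply]
  congr 1
  ring

theorem nm_neg (x : Fin d → ℤ) : nm (-x) = nm x := by
  simp [nm]

theorem nm_sub_comm (x y : Fin d → ℤ) : nm (x - y) = nm (y - x) := by
  rw [← nm_neg, neg_sub]

/-- The passage time is at least `a` times the `ℓ¹` distance. -/
theorem T_ge_dist (ha : 0 < a) (hab : a < b) (ω : Cfg d n) {u w : Fin d → ℤ} (p : (G d n).Walk u w) :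
    a * (nm (w - u) : ℝ) ≤ T a b ω p := by
  have h := potential (a := a) (b := b) ω (fun z => a * (nm (z - u) : ℝ)) p (by
    intro x y he
    have hadj : (G d n).Adj x y := p.adj_of_mem_edges he
    have h1 : (nm (y - u) : ℝ) ≤ nm (x - u) + 1 := by
      rcases nm_adj (adj_sub hadj.2.2 u) with h | h
      · rw [h]; push_cast; linarith
      · rw [h]; push_cast; linarith
    have h2 := tm_ge hab ω (show s(x, y) ∈ (G d n).edgeSet from hadj)
    have h3 : a * (nm (y - u) : ℝ) ≤ a * (nm (x - u) + 1) := mul_le_mul_of_nonneg_left h1 ha.le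
    linarith)
  simp only [sub_self, nm_zero] at h
  simpa using h

theorem nm_through {z w : Fin d → ℤ} (i : Fin d) (hw : w i = 0) :
    nm w + 2 * |z i| ≤ nm z + nm (w - z) := by
  have h1 : nm z + nm (w - z) - nm w = ∑ k, (|z k| + |(w - z) k| - |w k|) := by
    simp only [nm, Finset.sum_sub_distrib, Finset.sum_add_distrib]
  have h2 : |z i| + |(w - z) i| - |w i| ≤ ∑ k, (|z k| + |(w - z) k| - |w k|) := by
    refine Finset.single_le_sum (f := fun k => |z k| + |(w - z) k| - |w k|) (fun k _ => ?_)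
      (Finset.mem_univ i)
    have := abs_add_le (z k) ((w - z) k)
    have h3 : z k + (w - z) k = w k := by simp
    rw [h3] at this
    linarith
  rw [Pi.sub_apply, hw, zero_sub, abs_neg, abs_zero] at h2
  linarith

theorem T_ge_through (ha : 0 < a) (hab : a < b) (ω : Cfg d n) {w z : Fin d → ℤ}
    (p : (G d n).Walk 0 w) (hz : z ∈ p.support) (i : Fin d) (hw : w i = 0) :
    a * ((nm w : ℝ) + 2 * |z i|) ≤ T a b ω p := by
  classical
  have h1 := T_ge_dist (a := a) (b := b) ha hab ω (p.takeUntil z hz)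
  have h2 := T_ge_dist (a := a) (b := b) ha hab ω (p.dropUntil z hz)
  have h3 : T a b ω p = T a b ω (p.takeUntil z hz) + T a b ω (p.dropUntil z hz) := by
    rw [← T_append, Walk.take_spec]
  rw [sub_zero] at h1
  have h4 := nm_through (z := z) i hw
  have h4' : (nm w : ℝ) + 2 * |z i| ≤ nm z + nm (w - z) := by exact_mod_cast h4
  have h5 := mul_le_mul_of_nonneg_left h4' ha.le
  rw [h3]
  push_cast at h5 ⊢
  linarith

/-- `f` is attained by a walk. -/
theorem exists_walk_f (ha : 0 < a) (hab : a < b) {v : Fin d → ℤ} (ω : Cfg d n)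
    (γ0 : (G d n).Walk 0 (n • v)) : ∃ γ : (G d n).Walk 0 (n • v), T a b ω γ = f a b v ω := by
  obtain ⟨γ, hγ⟩ := exists_min_walk ha hab ω γ0
  exact ⟨γ, le_antisymm (le_f ω γ fun γ' _ => hγ γ') (f_le ha hab ω γ)⟩

theorem smul_bound {v : Fin d → ℤ} (hv2 : ∀ i, |v i| ≤ 2) (i : Fin d) :
    |(n • v) i| ≤ 2 * n := by
  rw [Pi.smul_apply, nsmul_eq_mul, abs_mul, Nat.abs_cast]
  have h2 : (n : ℤ) * |v i| ≤ n * 2 := mul_le_mul_of_nonneg_left (hv2 i) (by positivity)
  omega

/-- direct walk -/
theorem exists_direct {v : Fin d → ℤ} (hv2 : ∀ i, |v i| ≤ 2) :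
    ∃ γ : (G d n).Walk 0 (n • v), (γ.length : ℤ) = nm (n • v) := by
  obtain ⟨Γ0, h, -⟩ := outWalk (n := n) (smul_bound hv2) (nm (n • v)).toNat 0 (dom_zero _) (by
    rw [nm_zero]
    have := nm_nonneg (n • v)
    omega)
  exact ⟨Γ0, by have := nm_nonneg (n • v); omega⟩

/-- vertical unit vectors -/
def vert (i : Fin d) (m : ℤ) : Fin d → ℤ := Function.update 0 i m

theorem nm_vert (i : Fin d) (m : ℤ) : nm (vert i m) = |m| := by
  rw [vert, nm_update, nm_zero]
  simp

/-- An edge at height `m` which can never be very influential. -/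
theorem very_empty (ha : 0 < a) (hab : a < b) {v : Fin d → ℤ} (hv2 : ∀ i, |v i| ≤ 2) (i : Fin d)
    (hi : v i = 0) {m : ℕ} (hm : b * (nm (n • v) : ℝ) < a * ((nm (n • v) : ℝ) + 2 * m) + (b - a))
    (j : W d n) (hj : vert i m ∈ (j : Sym2 (Fin d → ℤ))) : VeryInfluential a b v j = ∅ := by
  classical
  rw [Set.eq_empty_iff_forall_notMem]
  intro ω hω
  have h0 : f a b v (Function.update ω j false) - f a b v (Function.update ω j true) = b - a := hω
  obtain ⟨γ0, hγ0⟩ := exists_direct (n := n) hv2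
  have hγ0' : ((γ0.length : ℕ) : ℝ) = (nm (n • v) : ℝ) := by exact_mod_cast hγ0
  obtain ⟨γ, hγ⟩ := exists_walk_f ha hab (Function.update ω j true) γ0
  by_cases hjγ : (j : Sym2 (Fin d → ℤ)) ∈ γ.edges
  · have h1 : vert i m ∈ γ.support := Walk.mem_support_of_mem_edges hjγ hj
    have h2 := T_ge_through ha hab (Function.update ω j true) γ h1 i (by simp [hi])
    have h3 : |(vert i (m : ℤ)) i| = m := by simp [vert]
    rw [h3, hγ] at h2
    have h4 := f_le ha hab (Function.update ω j false) γ0
    have h5 := T_le_length hab (Function.update ω j false) γ0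
    rw [hγ0'] at h5
    push_cast at h2
    linarith
  · have h1 := f_le ha hab (Function.update ω j false) γ
    rw [T_update_not ω j false γ hjγ] at h1
    rw [T_update_not ω j true γ hjγ] at hγ
    linarith

open Classical in
/-- The tent configuration. -/
noncomputable def tent (v : Fin d → ℤ) (i : Fin d) (m : ℕ) : Cfg d n := fun e =>
  decide ((∀ z ∈ (e : Sym2 (Fin d → ℤ)), z i = m) ∨
    (∀ z ∈ (e : Sym2 (Fin d → ℤ)), ∀ k, k ≠ i → z k = 0) ∨
    (∀ z ∈ (e : Sym2 (Fin d → ℤ)), ∀ k, k ≠ i → z k = (n • v) k))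

theorem T_all_a (ω : Cfg d n) {u w : Fin d → ℤ} (p : (G d n).Walk u w)
    (h : ∀ e ∈ p.edges, tm a b ω e = a) : T a b ω p = a * p.length := by
  induction p with
  | nil => simp
  | cons hadj p ih =>
    rename_i u v w
    rw [T_cons, ih (fun e he => h e (by simp [he])), h s(u, v) (by simp), Walk.length_cons]
    push_cast
    ring

theorem tm_tent {v : Fin d → ℤ} {i : Fin d} {m : ℕ} {e : Sym2 (Fin d → ℤ)}
    (he : e ∈ (G d n).edgeSet)
    (h : (∀ z ∈ e, z i = m) ∨ (∀ z ∈ e, ∀ k, k ≠ i → z k = 0) ∨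
      (∀ z ∈ e, ∀ k, k ≠ i → z k = (n • v) k)) : tm a b (tent (n := n) v i m) e = a := by
  classical
  rw [tm_cases _ he, tent, if_pos (decide_eq_true h)]

theorem tm_tent_not {v : Fin d → ℤ} {i : Fin d} {m : ℕ} {e : Sym2 (Fin d → ℤ)}
    (he : e ∈ (G d n).edgeSet)
    (h : ¬ ((∀ z ∈ e, z i = m) ∨ (∀ z ∈ e, ∀ k, k ≠ i → z k = 0) ∨
      (∀ z ∈ e, ∀ k, k ≠ i → z k = (n • v) k))) : tm a b (tent (n := n) v i m) e = b := by
  classical
  rw [tm_cases _ he, tent, if_neg]
  rw [decide_eq_true_eq]
  exact h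

theorem adj_lip {x y : Fin d → ℤ} (h : (lattice d).Adj x y) (i : Fin d) :
    nm (Function.update y i 0) ≤ nm (Function.update x i 0) + 1 := by
  obtain ⟨k, h1, h2⟩ := adj_struct h
  by_cases hk : k = i
  · subst hk
    rw [h2, Function.update_idem]
    omega
  · have h3 : Function.update y i 0 = Function.update (Function.update x i 0) k (y k) := by
      conv_lhs => rw [h2]
      exact Function.update_comm hk (y k) 0 x
    have h4 : (Function.update x i 0) k = x k := Function.update_of_ne hk _ _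
    rw [h3, nm_update, h4]
    rcases abs_cases (x k - y k) with ⟨h5, _⟩ | ⟨h5, _⟩ <;>
    rcases abs_cases (x k) with ⟨h6, _⟩ | ⟨h6, _⟩ <;>
    rcases abs_cases (y k) with ⟨h7, _⟩ | ⟨h7, _⟩ <;> omega

theorem tent_lower (ha : 0 < a) (hab : a < b) {v : Fin d → ℤ} (i : Fin d)
    (hi : v i = 0) {m : ℕ} (hm : a * ((nm (n • v) : ℝ) + 2 * m) ≤ b * (nm (n • v) : ℝ))
    (γ : (G d n).Walk 0 (n • v)) :
    a * ((nm (n • v) : ℝ) + 2 * m) ≤ T a b (tent (n := n) v i m) γ := by
  classical
  by_cases hvis : ∃ z ∈ γ.support, z i = m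
  · obtain ⟨z, hz, hzi⟩ := hvis
    have h2 := T_ge_through ha hab (tent (n := n) v i m) γ hz i (by simp [hi])
    rw [hzi] at h2
    simpa using h2
  · push Not at hvis
    refine hm.trans ?_
    have h := potential (a := a) (b := b) (tent (n := n) v i m)
      (fun z => -(b * (nm (Function.update (z - n • v) i 0) : ℝ))) γ (by
      intro x y he
      have hadj : (G d n).Adj x y := γ.adj_of_mem_edges he
      have hx := Walk.mem_support_of_mem_edges he (Sym2.mem_mk_left x y)
      by_cases hcase : (∀ z ∈ s(x, y), ∀ k, k ≠ i → z k = 0) ∨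
          (∀ z ∈ s(x, y), ∀ k, k ≠ i → z k = (n • v) k)
      · have hxy : Function.update (y - n • v) i 0 = Function.update (x - n • v) i 0 := by
          funext k
          by_cases hk : k = i
          · subst hk
            rw [Function.update_self, Function.update_self]
          · rw [Function.update_of_ne hk, Function.update_of_ne hk, Pi.sub_apply, Pi.sub_apply]
            rcases hcase with h | h
            · rw [h x (Sym2.mem_mk_left x y) k hk, h y (Sym2.mem_mk_right x y) k hk]
            · rw [h x (Sym2.mem_mk_left x y) k hk, h y (Sym2.mem_mk_right x y) k hk]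
        rw [hxy, sub_self]
        exact tm_nonneg ha hab _ _
      · rw [tm_tent_not (show s(x, y) ∈ (G d n).edgeSet from hadj) (by
          rintro (h | h)
          · exact hvis x hx (h x (Sym2.mem_mk_left x y))
          · exact hcase h)]
        have h1 := adj_lip (adj_sub hadj.2.2 (n • v)).symm i
        have h1' : (nm (Function.update (x - n • v) i 0) : ℝ) ≤
          nm (Function.update (y - n • v) i 0) + 1 := by exact_mod_cast h1
        have h2 := mul_le_mul_of_nonneg_left h1' (ha.trans hab).le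
        linarith)
    have h1 : nm (Function.update (n • v - n • v) i 0) = 0 := by
      rw [sub_self, nm_update, nm_zero]
      simp
    have h2 : nm (Function.update (0 - n • v) i 0) = nm (n • v) := by
      rw [nm_update, zero_sub, nm_neg]
      simp [hi]
    simp only [h1, h2] at h
    push_cast at h
    linarith

theorem tent_semi (ha : 0 < a) (hab : a < b) {v : Fin d → ℤ} (hv2 : ∀ i, |v i| ≤ 2) (i : Fin d)
    (hi : v i = 0) {m : ℕ} (hm1 : 1 ≤ m) (hmn : m ≤ 2 * n)
    (hm : a * ((nm (n • v) : ℝ) + 2 * m) ≤ b * (nm (n • v) : ℝ)) :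
    ∃ j : W d n, vert i m ∈ (j : Sym2 (Fin d → ℤ)) ∧
      tent (n := n) v i m ∈ SemiEssential a b v j := by
  classical
  have hbox : ∀ (t : ℤ), |t| ≤ 2 * n → ∀ k, |vert i t k| ≤ 2 * (n : ℤ) := by
    intro t ht k
    by_cases hk : k = i
    · subst hk
      rw [vert, Function.update_self]
      exact ht
    · rw [vert, Function.update_of_ne hk]
      simp
  have hadj : (G d n).Adj (vert i ((m : ℤ) - 1)) (vert i m) := by
    refine ⟨hbox _ (by rw [abs_of_nonneg (by omega)]; omega),
      hbox _ (by rw [abs_of_nonneg (by omega)]; omega), ?_⟩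
    have := adj_update (vert i ((m : ℤ) - 1)) i (t := m) (by simp [vert])
    have h2 : Function.update (vert i ((m : ℤ) - 1)) i (m : ℤ) = vert i m := by
      rw [vert, vert, Function.update_idem]
    rwa [h2] at this
  set j : W d n := ⟨s(vert i ((m : ℤ) - 1), vert i m), hadj⟩ with hj
  refine ⟨j, Sym2.mem_mk_right _ _, ?_⟩
  -- the top right corner
  set c : Fin d → ℤ := Function.update (n • v) i (m : ℤ) with hc
  have hcbox : ∀ k, |c k| ≤ 2 * (n : ℤ) := by
    intro k
    by_cases hk : k = i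
    · subst hk
      rw [hc, Function.update_self, abs_of_nonneg (by omega)]
      omega
    · rw [hc, Function.update_of_ne hk]
      exact smul_bound hv2 k
  have hnc : nm c = nm (n • v) + m := by
    rw [hc, nm_update]
    simp [hi]
  -- first leg
  obtain ⟨p1, hp1, hs1⟩ := outWalk' (n := n) (hbox ((m : ℤ) - 1)
    (by rw [abs_of_nonneg (by omega)]; omega)) (m - 1) 0 (dom_zero _) (by
      rw [nm_zero, nm_vert, abs_of_nonneg (by omega)]
      omega)
  -- second leg
  have hd2 : dom (vert i m) c := by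
    intro k
    by_cases hk : k = i
    · subst hk
      rw [hc, vert, Function.update_self, Function.update_self]
      exact Or.inl ⟨by omega, le_rfl⟩
    · rw [hc, vert, Function.update_of_ne hk, Function.update_of_ne hk]
      exact dom_zero (n • v) k
  obtain ⟨p2, hp2, hs2⟩ := outWalk' (n := n) hcbox (nm (n • v)).toNat (vert i m) hd2 (by
      rw [nm_vert, hnc, abs_of_nonneg (by omega)]
      have := nm_nonneg (n • v)
      omega)
  -- third leg
  have hd3 : dom (n • v) c := by
    intro k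
    by_cases hk : k = i
    · subst hk
      rw [hc, Function.update_self]
      left
      simp [hi]
    · rw [hc, Function.update_of_ne hk]
      exact dom_refl (n • v) k
  obtain ⟨p3, hp3, hs3⟩ := outWalk' (n := n) hcbox m (n • v) hd3 (by rw [hnc]; ring)
  set γ : (G d n).Walk 0 (n • v) := p1.append (Walk.cons hadj (p2.append p3.reverse)) with hγ
  have hjγ : (j : Sym2 (Fin d → ℤ)) ∈ γ.edges := by
    rw [hγ, hj]
    simp
  have hall : ∀ e ∈ γ.edges, tm a b (tent (n := n) v i m) e = a := by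
    intro e he
    have heG : e ∈ (G d n).edgeSet := γ.edges_subset_edgeSet he
    refine tm_tent heG ?_
    rw [hγ, Walk.edges_append, Walk.edges_cons, Walk.edges_append, Walk.edges_reverse,
      List.mem_append, List.mem_cons, List.mem_append, List.mem_reverse] at he
    rcases he with he | rfl | he | he
    · right; left
      intro z hz k hk
      have h1 := (hs1 z (Walk.mem_support_of_mem_edges he hz)).2 k
      rw [vert, Function.update_of_ne hk, Pi.zero_apply] at h1
      omega
    · right; left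
      intro z hz k hk
      rw [Sym2.mem_iff] at hz
      rcases hz with rfl | rfl
      · rw [vert, Function.update_of_ne hk, Pi.zero_apply]
      · rw [vert, Function.update_of_ne hk, Pi.zero_apply]
    · left
      intro z hz
      have h1 := hs2 z (Walk.mem_support_of_mem_edges he hz)
      have h2 := h1.1 i
      have h3 := h1.2 i
      rw [vert, Function.update_self] at h2
      rw [hc, Function.update_self] at h3
      omega
    · right; right
      intro z hz k hk
      have h1 := hs3 z (Walk.mem_support_of_mem_edges he hz)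
      have h2 := h1.1 k
      have h3 := h1.2 k
      rw [hc, Function.update_of_ne hk] at h3
      omega
  have hlen : (γ.length : ℤ) = nm (n • v) + 2 * m := by
    rw [hγ, Walk.length_append, Walk.length_cons, Walk.length_append, Walk.length_reverse, hp1,
      hp2, hp3]
    have := nm_nonneg (n • v)
    push_cast
    omega
  have hlen' : ((γ.length : ℕ) : ℝ) = (nm (n • v) : ℝ) + 2 * m := by exact_mod_cast hlen
  refine (geodesic_of_walk ha hab γ hjγ fun γ' => ?_).2
  rw [T_all_a _ γ hall, hlen']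
  exact tent_lower ha hab i hi hm γ'

/-- positivity and vanishing -/
theorem tent_main (ha : 0 < a) (hab : a < b) (p : unitInterval) (hp0 : 0 < (p : ℝ))
    (hp1 : (p : ℝ) < 1) {v : Fin d → ℤ} (hv2 : ∀ i, |v i| ≤ 2) (i : Fin d)
    (hi : v i = 0) {m : ℕ} (hm1 : 1 ≤ m) (hmn : m ≤ 2 * n)
    (hm : a * ((nm (n • v) : ℝ) + 2 * m) ≤ b * (nm (n • v) : ℝ))
    (hm' : b * (nm (n • v) : ℝ) < a * ((nm (n • v) : ℝ) + 2 * m) + (b - a)) :
    ∃ j : W d n, 0 < (law d n p).real (SemiEssential a b v j) ∧
      (law d n p).real (VeryInfluential a b v j) = 0 := by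
  obtain ⟨j, h1, h2⟩ := tent_semi ha hab hv2 i hi hm1 hmn hm
  refine ⟨j, prob_pos p hp0 hp1 _ _ h2, ?_⟩
  rw [very_empty ha hab hv2 i hi hm' j h1]
  simp

/-- arbitrarily large `n` -/
theorem tent_large (ha : 0 < a) (hab : a < b) (p : unitInterval) (hp0 : 0 < (p : ℝ))
    (hp1 : (p : ℝ) < 1) {v : Fin d → ℤ} (hv : v ≠ 0) (hv2 : ∀ i, |v i| ≤ 2) (i : Fin d)
    (hi : v i = 0) (hr : (b - a) * (nm v : ℝ) ≤ 4 * a) (N : ℕ) :
    ∃ n ≥ N, ∃ j : W d n, 0 < (law d n p).real (SemiEssential a b v j) ∧
      (law d n p).real (VeryInfluential a b v j) = 0 := by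
  have hρ : 0 < (b - a) / (2 * a) := div_pos (by linarith) (by linarith)
  set ρ : ℝ := (b - a) / (2 * a) with hρd
  have hnv : (1 : ℝ) ≤ nm v := by exact_mod_cast nm_pos hv
  set α : ℝ := ρ * nm v with hα
  have hα0 : 0 < α := by positivity
  obtain ⟨K, hK⟩ := exists_nat_gt (1 / α)
  obtain ⟨n, hn, hfr⟩ := exists_fract_lt α ρ hρ (max N K)
  have hnN : N ≤ n := (le_max_left _ _).trans hn
  have hnK : (K : ℝ) ≤ n := by exact_mod_cast (le_max_right _ _).trans hn
  have hn1 : 1 < n * α := by
    rw [div_lt_iff₀ hα0] at hK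
    have := mul_le_mul_of_nonneg_right hnK hα0.le
    linarith
  have hα2 : α ≤ 2 := by
    rw [hα, hρd, div_mul_eq_mul_div, div_le_iff₀ (by linarith)]
    linarith
  set m : ℕ := ⌊(n : ℝ) * α⌋₊ with hmd
  have hfl : (m : ℝ) ≤ n * α := Nat.floor_le (by positivity)
  have hfr' : (n : ℝ) * α - m = Int.fract (n * α) := by
    rw [Int.fract, ← natCast_floor_eq_intCast_floor (by positivity)]
  have hm1 : 1 ≤ m := Nat.le_floor (by push_cast; linarith)
  have hmn : m ≤ 2 * n := by
    have h1 : (m : ℝ) ≤ 2 * n := by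
      have : (n : ℝ) * α ≤ n * 2 := mul_le_mul_of_nonneg_left hα2 (by positivity)
      linarith
    exact_mod_cast h1
  have hN : (nm (n • v) : ℝ) = n * nm v := by
    rw [nm_nsmul]
    push_cast
    ring
  have e1 : 2 * a * ρ = b - a := by
    rw [hρd]
    field_simp
  have e2 : 2 * a * (n * α) = (b - a) * (n * nm v) := by
    rw [hα, ← e1]
    ring
  refine ⟨n, hnN, tent_main ha hab p hp0 hp1 hv2 i hi hm1 hmn ?_ ?_⟩
  · rw [hN]
    have h1 : 2 * a * m ≤ 2 * a * (n * α) := mul_le_mul_of_nonneg_left hfl (by linarith)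
    linarith
  · rw [hN]
    rw [← hfr'] at hfr
    have h1 : 2 * a * (n * α - m) < 2 * a * ρ := mul_lt_mul_of_pos_left hfr (by linarith)
    linarith

/-- Unit vectors: all parameters. -/
theorem tent_unit (hd : 2 ≤ d) (ha : 0 < a) (hab : a < b) (p : unitInterval) (hp0 : 0 < (p : ℝ))
    (hp1 : (p : ℝ) < 1) {v : Fin d → ℤ} (hv : nm v = 1) :
    ∃ n ≥ 1, ∃ j : W d n, 0 < (law d n p).real (SemiEssential a b v j) ∧
      (law d n p).real (VeryInfluential a b v j) = 0 := by
  have hv0 : v ≠ 0 := by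
    rintro rfl
    rw [nm_zero] at hv
    norm_num at hv
  have hv2 : ∀ i, |v i| ≤ 2 := fun i => (abs_le_nm v i).trans (by omega)
  obtain ⟨i, hi⟩ : ∃ i, v i = 0 := by
    by_contra hcon
    push Not at hcon
    have h1 : ∑ _i : Fin d, (1 : ℤ) ≤ nm v := Finset.sum_le_sum fun i _ => by
      have := abs_pos.2 (hcon i)
      omega
    rw [Finset.sum_const, Finset.card_univ, Fintype.card_fin, hv] at h1
    simp at h1
    omega
  by_cases hr : (b - a) * (nm v : ℝ) ≤ 4 * a
  · exact tent_large ha hab p hp0 hp1 hv0 hv2 i hi hr 1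
  · rw [hv] at hr
    push Not at hr
    push_cast at hr
    have hN : (nm ((1 : ℕ) • v) : ℝ) = 1 := by
      rw [nm_nsmul, hv]
      simp
    refine ⟨1, le_rfl, tent_main (m := 1) ha hab p hp0 hp1 hv2 i hi le_rfl (by norm_num) ?_ ?_⟩
    · rw [hN]; push_cast; linarith
    · rw [hN]; push_cast; linarith

end Q292.Ess
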